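import Mathlib

namespace Pool.Agent.MP_a4672b_lc

open Classical in
/-- indicator -/
noncomputable def ind (p : Prop) : ℕ := if p then 1 else 0

lemma ind_le (p : Prop) : ind p ≤ 1 := by unfold ind; split_ifs <;> omega
lemma ind_pos {p : Prop} (h : p) : ind p = 1 := by simp [ind, h]
lemma ind_neg {p : Prop} (h : ¬ p) : ind p = 0 := by simp [ind, h]
lemma ind_mono {p q : Prop} (h : p → q) : ind p ≤ ind q := by
  by_cases hp : p
  · rw [ind_pos hp, ind_pos (h hp)]
  · rw [ind_neg hp]; omega
lemma ind_congr {p q : Prop} (h : p ↔ q) : ind p = ind q := by rw [propext h]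

variable {α β : Type*}

/-- consecutive pairs -/
def edges (l : List α) : List (α × α) := l.zip l.tail

@[simp] lemma edges_nil : edges ([] : List α) = [] := rfl
@[simp] lemma edges_single (x : α) : edges [x] = [] := rfl
@[simp] lemma edges_cons_cons (x y : α) (l : List α) :
    edges (x :: y :: l) = (x, y) :: edges (y :: l) := rfl

open Classical in
/-- number of consecutive pairs in relation `R` -/
noncomputable def cnt (R : α → α → Prop) (l : List α) : ℕ :=
  (edges l).countP fun e => decide (R e.1 e.2)

@[simp] lemma cnt_nil (R : α → α → Prop) : cnt R [] = 0 := rfl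
@[simp] lemma cnt_single (R : α → α → Prop) (x : α) : cnt R [x] = 0 := rfl
lemma cnt_cons_cons (R : α → α → Prop) (x y : α) (l : List α) :
    cnt R (x :: y :: l) = ind (R x y) + cnt R (y :: l) := by
  unfold cnt ind
  rw [edges_cons_cons, List.countP_cons]
  by_cases h : R x y <;> simp [h, add_comm]

lemma mem_of_mem_edges {l : List α} {e : α × α} (he : e ∈ edges l) : e.1 ∈ l ∧ e.2 ∈ l :=
  ⟨(List.of_mem_zip he).1, List.mem_of_mem_tail (List.of_mem_zip he).2⟩

lemma cnt_le_length (R : α → α → Prop) (l : List α) : cnt R l ≤ l.length := by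
  unfold cnt edges
  refine List.countP_le_length.trans ?_
  simp

lemma cnt_mono {R R' : α → α → Prop} {l : List α}
    (h : ∀ e ∈ edges l, R e.1 e.2 → R' e.1 e.2) : cnt R l ≤ cnt R' l := by
  unfold cnt
  apply List.countP_mono_left
  intro e he
  simpa using h e he

lemma cnt_congr {R R' : α → α → Prop} {l : List α}
    (h : ∀ x ∈ l, ∀ y ∈ l, R x y ↔ R' x y) : cnt R l = cnt R' l :=
  le_antisymm (cnt_mono fun e he => (h _ (mem_of_mem_edges he).1 _ (mem_of_mem_edges he).2).1)
    (cnt_mono fun e he => (h _ (mem_of_mem_edges he).1 _ (mem_of_mem_edges he).2).2)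

lemma cnt_eq_zero {R : α → α → Prop} {l : List α} (h : ∀ x ∈ l, ∀ y ∈ l, ¬ R x y) :
    cnt R l = 0 := by
  unfold cnt
  rw [List.countP_eq_zero]
  intro e he
  simpa using h _ (mem_of_mem_edges he).1 _ (mem_of_mem_edges he).2

lemma cnt_or_le (R R' : α → α → Prop) (l : List α) :
    cnt (fun x y => R x y ∨ R' x y) l ≤ cnt R l + cnt R' l := by
  induction l with
  | nil => simp
  | cons x l ih =>
    cases l with
    | nil => simp
    | cons y l =>
      simp only [cnt_cons_cons]
      have : ind (R x y ∨ R' x y) ≤ ind (R x y) + ind (R' x y) := by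
        by_cases h : R x y
        · rw [ind_pos h]; have := ind_le (R x y ∨ R' x y); omega
        · rw [ind_neg h, ind_congr (show (R x y ∨ R' x y) ↔ R' x y by tauto)]; omega
      omega

lemma cnt_or_of_disj (R R' : α → α → Prop) (l : List α) (h : ∀ x y, R x y → ¬ R' x y) :
    cnt (fun x y => R x y ∨ R' x y) l = cnt R l + cnt R' l := by
  induction l with
  | nil => simp
  | cons x l ih =>
    cases l with
    | nil => simp
    | cons y l =>
      simp only [cnt_cons_cons]
      have : ind (R x y ∨ R' x y) = ind (R x y) + ind (R' x y) := by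
        by_cases h1 : R x y
        · rw [ind_pos h1, ind_pos (Or.inl h1), ind_neg (h x y h1)]
        · rw [ind_neg h1, ind_congr (show (R x y ∨ R' x y) ↔ R' x y by tauto)]; omega
      omega

lemma cnt_map (R : β → β → Prop) (f : α → β) (l : List α) :
    cnt R (l.map f) = cnt (fun x y => R (f x) (f y)) l := by
  induction l with
  | nil => simp
  | cons x l ih =>
    cases l with
    | nil => simp
    | cons y l =>
      simp only [List.map_cons, cnt_cons_cons] at ih ⊢
      rw [ih]

lemma cnt_append_cons (R : α → α → Prop) (l : List α) (x : α) (m : List α) :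
    cnt R (l ++ x :: m) = cnt R (l ++ [x]) + cnt R (x :: m) := by
  induction l with
  | nil => simp
  | cons y l ih =>
    cases l with
    | nil => simp [cnt_cons_cons]
    | cons z l =>
      simp only [List.cons_append, cnt_cons_cons] at ih ⊢
      omega

lemma cnt_cons_le (R : α → α → Prop) (x : α) (l : List α) : cnt R (x :: l) ≤ 1 + cnt R l := by
  cases l with
  | nil => simp
  | cons y l => rw [cnt_cons_cons]; have := ind_le (R x y); omega

lemma cnt_le_cons (R : α → α → Prop) (x : α) (l : List α) : cnt R l ≤ cnt R (x :: l) := by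
  cases l with
  | nil => simp
  | cons y l => rw [cnt_cons_cons]; omega

lemma cnt_append_le (R : α → α → Prop) (l m : List α) :
    cnt R (l ++ m) ≤ cnt R l + 1 + cnt R m := by
  induction l with
  | nil => simp
  | cons y l ih =>
    cases l with
    | nil => simpa using cnt_cons_le R y m
    | cons z l =>
      simp only [List.cons_append, cnt_cons_cons] at ih ⊢
      omega

lemma cnt_le_append_right (R : α → α → Prop) (l m : List α) : cnt R m ≤ cnt R (l ++ m) := by
  induction l with
  | nil => simp
  | cons y l ih => exact ih.trans (cnt_le_cons R y _)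

lemma cnt_le_append_left (R : α → α → Prop) (l m : List α) : cnt R l ≤ cnt R (l ++ m) := by
  induction l with
  | nil => simp
  | cons y l ih =>
    cases l with
    | nil => simp
    | cons z l =>
      simp only [List.cons_append, cnt_cons_cons] at ih ⊢
      omega

lemma cnt_reverse (R : α → α → Prop) (l : List α) :
    cnt R l.reverse = cnt (fun x y => R y x) l := by
  induction l with
  | nil => simp
  | cons x l ih =>
    cases l with
    | nil => simp
    | cons y l =>
      rw [List.reverse_cons, List.reverse_cons, List.append_assoc, List.singleton_append,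
        cnt_append_cons, ← List.reverse_cons, ih, cnt_cons_cons, cnt_cons_cons]
      simp [add_comm]

lemma cnt_flatMap_le {ι : Type*} (R : α → α → Prop) (L : List ι) (g : ι → List α) (c : ℕ)
    (h : ∀ i ∈ L, cnt R (g i) ≤ c) : cnt R (L.flatMap g) ≤ L.length * (c + 1) := by
  induction L with
  | nil => simp
  | cons i L ih =>
    rw [List.flatMap_cons]
    have h1 := cnt_append_le R (g i) (L.flatMap g)
    have h2 := ih fun j hj => h j (List.mem_cons_of_mem _ hj)
    have h3 := h i List.mem_cons_self
    simp only [List.length_cons]
    nlinarith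

/-- a path meeting both sides of a cut has an edge across it -/
lemma exists_edge_of_mem {l : List α} {A : α → Prop} {x y : α} (hx : x ∈ l) (hy : y ∈ l)
    (hA : A x) (hA' : ¬ A y) : ∃ e ∈ edges l, (A e.1 ∧ ¬ A e.2) ∨ (¬ A e.1 ∧ A e.2) := by
  induction l generalizing x y with
  | nil => simp at hx
  | cons z l ih =>
    cases l with
    | nil =>
      simp only [List.mem_singleton] at hx hy
      exact absurd (hy ▸ hx ▸ hA) hA'
    | cons w l =>
      by_cases hz : A z <;> by_cases hw : A w
      · have hy' : y ∈ w :: l := by
          rcases List.mem_cons.1 hy with rfl | h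
          · exact absurd hz hA'
          · exact h
        obtain ⟨e, he, h⟩ := ih List.mem_cons_self hy' hw hA'
        exact ⟨e, List.mem_cons_of_mem _ he, h⟩
      · exact ⟨(z, w), List.mem_cons_self, Or.inl ⟨hz, hw⟩⟩
      · exact ⟨(z, w), List.mem_cons_self, Or.inr ⟨hz, hw⟩⟩
      · have hx' : x ∈ w :: l := by
          rcases List.mem_cons.1 hx with rfl | h
          · exact absurd hA hz
          · exact h
        obtain ⟨e, he, h⟩ := ih hx' List.mem_cons_self hA hw
        exact ⟨e, List.mem_cons_of_mem _ he, h⟩

lemma one_le_cnt {R : α → α → Prop} {l : List α} {e : α × α} (he : e ∈ edges l) (h : R e.1 e.2) :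
    1 ≤ cnt R l := by
  unfold cnt
  rw [Nat.one_le_iff_ne_zero, Ne, List.countP_eq_zero]
  push Not
  exact ⟨e, he, by simpa using h⟩

/-- counting by an injective family of edges -/
lemma card_le_cnt {ι : Type*} {R : α → α → Prop} {l : List α} (s : Finset ι) (g : ι → α × α)
    (hg : ∀ i ∈ s, g i ∈ edges l ∧ R (g i).1 (g i).2) (hinj : Set.InjOn g s) :
    s.card ≤ cnt R l := by
  classical
  unfold cnt
  rw [List.countP_eq_length_filter]
  refine le_trans ?_ (List.toFinset_card_le _)
  apply Finset.card_le_card_of_injOn g _ hinj
  intro i hi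
  simp only [List.coe_toFinset, List.mem_filter, Set.mem_ofPred_eq, decide_eq_true_eq]
  exact hg i hi

/-- the cut relation of a predicate -/
def Cut (A : α → Prop) (x y : α) : Prop := (A x ∧ ¬ A y) ∨ (¬ A x ∧ A y)

lemma Cut.symm {A : α → Prop} {x y : α} (h : Cut A x y) : Cut A y x := by
  unfold Cut at *; tauto

lemma split_of_cut_le_one {A : α → Prop} {l : List α} (h : cnt (Cut A) l ≤ 1) :
    ∃ l₁ l₂, l = l₁ ++ l₂ ∧ (((∀ x ∈ l₁, A x) ∧ ∀ x ∈ l₂, ¬ A x) ∨
      ((∀ x ∈ l₁, ¬ A x) ∧ ∀ x ∈ l₂, A x)) := by
  induction l with
  | nil => exact ⟨[], [], rfl, Or.inl ⟨by simp, by simp⟩⟩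
  | cons x l ih =>
    cases l with
    | nil =>
      by_cases hx : A x
      · exact ⟨[x], [], rfl, Or.inl ⟨by simpa, by simp⟩⟩
      · exact ⟨[x], [], rfl, Or.inr ⟨by simpa, by simp⟩⟩
    | cons y l =>
      rw [cnt_cons_cons] at h
      by_cases hc : Cut A x y
      · rw [ind_pos hc] at h
        have h0 : cnt (Cut A) (y :: l) = 0 := by omega
        have h1 : ∀ z ∈ y :: l, (A z ↔ A y) := by
          intro z hz
          constructor
          · intro hAz
            by_contra hy
            obtain ⟨e, he, h2⟩ := exists_edge_of_mem hz List.mem_cons_self hAz hy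
            have := one_le_cnt (R := Cut A) he h2
            omega
          · intro hy
            by_contra hAz
            obtain ⟨e, he, h2⟩ := exists_edge_of_mem List.mem_cons_self hz hy hAz
            have := one_le_cnt (R := Cut A) he h2
            omega
        refine ⟨[x], y :: l, rfl, ?_⟩
        rcases hc with hc | hc
        · exact Or.inl ⟨by simpa using hc.1, fun z hz h => hc.2 ((h1 z hz).1 h)⟩
        · exact Or.inr ⟨by simpa using hc.1, fun z hz => (h1 z hz).2 hc.2⟩
      · rw [ind_neg hc] at h
        obtain ⟨l₁, l₂, he, h'⟩ := ih (by omega)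
        have hxy : A x ↔ A y := by unfold Cut at hc; tauto
        cases l₁ with
        | nil =>
          simp only [List.nil_append] at he
          subst he
          refine ⟨[], x :: y :: l, rfl, ?_⟩
          rcases h' with h' | h'
          · refine Or.inl ⟨by simp, fun z hz => ?_⟩
            rcases List.mem_cons.1 hz with rfl | hz
            · exact fun h => h'.2 y List.mem_cons_self (hxy.1 h)
            · exact h'.2 z hz
          · refine Or.inr ⟨by simp, fun z hz => ?_⟩
            rcases List.mem_cons.1 hz with rfl | hz
            · exact hxy.2 (h'.2 y List.mem_cons_self)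
            · exact h'.2 z hz
        | cons w l₁ =>
          simp only [List.cons_append, List.cons.injEq] at he
          obtain ⟨rfl, rfl⟩ := he
          refine ⟨x :: y :: l₁, l₂, rfl, ?_⟩
          rcases h' with h' | h'
          · refine Or.inl ⟨fun z hz => ?_, h'.2⟩
            rcases List.mem_cons.1 hz with rfl | hz
            · exact hxy.2 (h'.1 y List.mem_cons_self)
            · exact h'.1 z hz
          · refine Or.inr ⟨fun z hz => ?_, h'.2⟩
            rcases List.mem_cons.1 hz with rfl | hz
            · exact fun h => h'.1 y List.mem_cons_self (hxy.1 h)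
            · exact h'.1 z hz

/-- if every threshold is crossed at most once and the path ends at the maximum, it is sorted -/
lemma sorted_of_cut_le_one (key : α → ℕ) (l : List α) (z : α) (hz : ∀ x ∈ l, key x < key z)
    (h : ∀ i, (∃ x ∈ l, key x = i) → cnt (Cut fun x => key x ≤ i) (l ++ [z]) ≤ 1) :
    l.Pairwise fun x y => key x ≤ key y := by
  induction l with
  | nil => exact List.Pairwise.nil
  | cons x l ih =>
    rw [List.pairwise_cons]
    refine ⟨fun y hy => ?_, ih (fun y hy => hz y (List.mem_cons_of_mem _ hy)) fun i hi => ?_⟩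
    · by_contra hc
      push Not at hc
      have h1 := h (key y) ⟨y, List.mem_cons_of_mem _ hy, rfl⟩
      obtain ⟨s, t, rfl⟩ := List.append_of_mem hy
      have h2 : (x :: (s ++ y :: t)) ++ [z] = (x :: s) ++ y :: (t ++ [z]) := by simp
      rw [h2, cnt_append_cons] at h1
      obtain ⟨e, he, h3⟩ := exists_edge_of_mem (l := (x :: s) ++ [y]) (A := fun w => key w ≤ key y)
        (x := y) (y := x) (by simp) (by simp) le_rfl (by omega)
      obtain ⟨e', he', h4⟩ := exists_edge_of_mem (l := y :: (t ++ [z]))
        (A := fun w => key w ≤ key y) (x := y) (y := z) (by simp) (by simp) le_rfl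
        (by have := hz y (by simp); omega)
      have := one_le_cnt (R := Cut fun w => key w ≤ key y) he h3
      have := one_le_cnt (R := Cut fun w => key w ≤ key y) he' h4
      omega
    · obtain ⟨y, hy, rfl⟩ := hi
      exact (cnt_le_cons _ x _).trans (h _ ⟨y, List.mem_cons_of_mem _ hy, rfl⟩)

lemma cnt_cut_le_one_of_sorted (key : α → ℕ) (i : ℕ) (l : List α)
    (h : l.Pairwise fun x y => key x ≤ key y) : cnt (Cut fun x => key x ≤ i) l ≤ 1 := by
  induction l with
  | nil => simp
  | cons x l ih =>
    rw [List.pairwise_cons] at h
    cases l with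
    | nil => simp
    | cons y l =>
      rw [cnt_cons_cons]
      by_cases hc : Cut (fun x => key x ≤ i) x y
      · have h1 := h.1 y List.mem_cons_self
        have hy : ¬ key y ≤ i := by unfold Cut at hc; omega
        have h2 := (List.pairwise_cons.1 h.2).1
        rw [cnt_eq_zero (l := y :: l)]
        · exact ind_le _
        · intro u hu v hv
          have h3 : ∀ w ∈ y :: l, ¬ key w ≤ i := by
            intro w hw
            rcases List.mem_cons.1 hw with rfl | hw
            · exact hy
            · have := h2 w hw; omega
          have := h3 u hu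
          have := h3 v hv
          unfold Cut; tauto
      · rw [ind_neg hc, zero_add]; exact ih h.2

section real
variable (f : α → ℝ)

/-- number of stabbed edges -/
noncomputable def cross (l : List α) : ℕ := cnt (fun x y => f x * f y < 0) l

/-- crossing number, with a charge if the first value is positive -/
noncomputable def cL : List α → ℕ
  | [] => 0
  | y :: l => ind (0 < f y) + cross f (y :: l)

/-- crossing number, with a charge if the first value is negative -/
noncomputable def cR : List α → ℕ
  | [] => 0
  | y :: l => ind (f y < 0) + cross f (y :: l)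

lemma cL_cons (y : α) (l : List α) : cL f (y :: l) = ind (0 < f y) + cross f (y :: l) := rfl
lemma cR_cons (y : α) (l : List α) : cR f (y :: l) = ind (f y < 0) + cross f (y :: l) := rfl

lemma cross_neg (l : List α) : cross (fun x => - f x) l = cross f l := by
  unfold cross; simp

lemma cross_le_cL (l : List α) : cross f l ≤ cL f l := by
  cases l with
  | nil => simp [cross]
  | cons y l => simp [cL]

lemma cross_le_cR (l : List α) : cross f l ≤ cR f l := by
  cases l with
  | nil => simp [cross]
  | cons y l => simp [cR]

lemma cL_le (l : List α) : cL f l ≤ 1 + cross f l := by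
  cases l with
  | nil => simp [cL]
  | cons y l => have := ind_le (0 < f y); simp only [cL]; omega

lemma cR_le (l : List α) : cR f l ≤ 1 + cross f l := by
  cases l with
  | nil => simp [cR]
  | cons y l => have := ind_le (f y < 0); simp only [cR]; omega

lemma cross_cons_le_cL (x : α) (l : List α) : cross f (x :: l) ≤ ind (0 < f x) + cL f l := by
  cases l with
  | nil => simp [cross]
  | cons y l =>
    simp only [cross, cL, cnt_cons_cons]
    have : ind (f x * f y < 0) ≤ ind (0 < f x) + ind (0 < f y) := by
      by_cases h : f x * f y < 0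
      · rcases mul_neg_iff.1 h with h1 | h1
        · rw [ind_pos h, ind_pos h1.1]; omega
        · rw [ind_pos h, ind_pos h1.2]; omega
      · rw [ind_neg h]; omega
    omega

lemma cross_cons_le_cR (x : α) (l : List α) : cross f (x :: l) ≤ ind (f x < 0) + cR f l := by
  cases l with
  | nil => simp [cross]
  | cons y l =>
    simp only [cross, cR, cnt_cons_cons]
    have : ind (f x * f y < 0) ≤ ind (f x < 0) + ind (f y < 0) := by
      by_cases h : f x * f y < 0
      · rcases mul_neg_iff.1 h with h1 | h1
        · rw [ind_pos h, ind_pos h1.2]; omega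
        · rw [ind_pos h, ind_pos h1.1]; omega
      · rw [ind_neg h]; omega
    omega

lemma cL_append_nonpos (A l : List α) (h : ∀ x ∈ A, f x ≤ 0) : cL f (A ++ l) ≤ cL f l := by
  induction A with
  | nil => simp
  | cons x A ih =>
    have h1 : ind (0 < f x) = 0 := ind_neg (not_lt.2 (h x List.mem_cons_self))
    have h2 := cross_cons_le_cL f x (A ++ l)
    have h3 := ih fun y hy => h y (List.mem_cons_of_mem _ hy)
    rw [List.cons_append, cL_cons]
    omega

lemma cR_append_nonneg (A l : List α) (h : ∀ x ∈ A, 0 ≤ f x) : cR f (A ++ l) ≤ cR f l := by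
  induction A with
  | nil => simp
  | cons x A ih =>
    have h1 : ind (f x < 0) = 0 := ind_neg (not_lt.2 (h x List.mem_cons_self))
    have h2 := cross_cons_le_cR f x (A ++ l)
    have h3 := ih fun y hy => h y (List.mem_cons_of_mem _ hy)
    rw [List.cons_append, cR_cons]
    omega

lemma cR_append_anti (A l : List α) (h : A.Pairwise fun x y => f y ≤ f x) :
    cR f (A ++ l) ≤ 1 + cL f l := by
  induction A with
  | nil =>
    have := cR_le f l
    have := cross_le_cL f l
    simp only [List.nil_append]; omega
  | cons x A ih =>
    rw [List.pairwise_cons] at h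
    by_cases hx : f x < 0
    · have h1 := cR_le f (x :: A ++ l)
      have h2 := cross_le_cL f (x :: A ++ l)
      have h3 := cL_append_nonpos f (x :: A) l (by
        intro y hy
        rcases List.mem_cons.1 hy with rfl | hy
        · exact hx.le
        · exact (h.1 y hy).trans hx.le)
      omega
    · have h1 : ind (f x < 0) = 0 := ind_neg hx
      have h2 := cross_cons_le_cR f x (A ++ l)
      have h3 := ih h.2
      rw [List.cons_append, cR_cons]
      omega

lemma cL_append_mono (A l : List α) (h : A.Pairwise fun x y => f x ≤ f y) :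
    cL f (A ++ l) ≤ 1 + cR f l := by
  induction A with
  | nil =>
    have := cL_le f l
    have := cross_le_cR f l
    simp only [List.nil_append]; omega
  | cons x A ih =>
    rw [List.pairwise_cons] at h
    by_cases hx : 0 < f x
    · have h1 := cL_le f (x :: A ++ l)
      have h2 := cross_le_cR f (x :: A ++ l)
      have h3 := cR_append_nonneg f (x :: A) l (by
        intro y hy
        rcases List.mem_cons.1 hy with rfl | hy
        · exact hx.le
        · exact hx.le.trans (h.1 y hy))
      omega
    · have h1 : ind (0 < f x) = 0 := ind_neg hx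
      have h2 := cross_cons_le_cL f x (A ++ l)
      have h3 := ih h.2
      rw [List.cons_append, cL_cons]
      omega

lemma cross_eq_zero_of_nonneg (l : List α) (h : ∀ x ∈ l, 0 ≤ f x) : cross f l = 0 :=
  cnt_eq_zero fun x hx y hy => not_lt.2 (mul_nonneg (h x hx) (h y hy))

lemma cross_eq_zero_of_nonpos (l : List α) (h : ∀ x ∈ l, f x ≤ 0) : cross f l = 0 :=
  cnt_eq_zero fun x hx y hy => not_lt.2 (mul_nonneg_of_nonpos_of_nonpos (h x hx) (h y hy))

lemma cross_le_one_of_mono (l : List α) (h : l.Pairwise fun x y => f x ≤ f y) : cross f l ≤ 1 := by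
  have h1 := cL_append_mono f l [] h
  have h2 := cross_le_cL f (l ++ [])
  simp only [List.append_nil, cR] at h1 h2
  omega

lemma cross_le_one_of_anti (l : List α) (h : l.Pairwise fun x y => f y ≤ f x) : cross f l ≤ 1 := by
  have h1 := cR_append_anti f l [] h
  have h2 := cross_le_cR f (l ++ [])
  simp only [List.append_nil, cL] at h1 h2
  omega

end real

end Pool.Agent.MP_a4672b_lc
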