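import Mathlib
import Pool.Prelude.Def_F_458e953d

namespace Pool.Agent.MP_a4672b_lc

open Classical in
/-- The number of edges (pairs of consecutive vertices) of the polygonal path `P` whose endpoints
lie strictly on opposite sides of the line `a x + b y + c = 0`. -/
noncomputable def stabCount (a b c : ℝ) (P : List (ℚ × ℚ)) : ℕ :=
  (P.zip P.tail).countP fun e =>
    decide ((a * e.1.1 + b * e.1.2 + c) * (a * e.2.1 + b * e.2.2 + c) < 0)

/-- The largest number of edges of `P` stabbed by one line. -/
noncomputable def maxStab (P : List (ℚ × ℚ)) : ℕ :=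
  sSup {m | ∃ a b c : ℝ, (a ≠ 0 ∨ b ≠ 0) ∧ stabCount a b c P = m}

/-- The path-stabbing number: minimum over all spanning paths. -/
noncomputable def pathStab (S : Finset (ℚ × ℚ)) : ℕ :=
  sInf {m | ∃ P : List (ℚ × ℚ), P.Nodup ∧ P.toFinset = S ∧ maxStab P = m}

open Classical in
/-- The decision problem on bit strings: the input encodes a list of at least two distinct points
with rational coordinates (in binary) and an integer `k`, and `pathStab ≤ k`. -/
noncomputable def PathStabProblem (w : List Bool) : Bool :=
  decide (∃ (l : List (ℚ × ℚ)) (k : ℤ), w = N487b59b3.bitEncode (l, k) ∧ l.Nodup ∧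
    2 ≤ l.length ∧ (pathStab l.toFinset : ℤ) ≤ k)

end Pool.Agent.MP_a4672b_lc
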