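import Pool.Agent.MP_a4672b_lc.Cross

namespace Pool.Agent.MP_a4672b_lc

/-- parameters of the barrier construction -/
structure Par where
  nV : ℕ
  B : ℕ
  K : ℕ
  N : ℕ
  k : ℕ
  rho : ℕ → ℕ

namespace Par

variable (P : Par)

def S : ℕ := P.N * (P.B + P.K + 1)

def pt (b r j : ℕ) : ℕ × ℕ :=
  (P.S * (2 * b + 1) + (if b < P.nV then 0 else 2 * P.S * r) + j, 2 * P.S * (P.B + r))

def rowLR (b r : ℕ) : List (ℕ × ℕ) := (List.range P.N).map (P.pt b r)

def row (b r : ℕ) : List (ℕ × ℕ) := if r % 2 = 0 then (P.rowLR b r).reverse else P.rowLR b r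

def snake (b : ℕ) : List (ℕ × ℕ) := (List.range (P.rho b)).flatMap (P.row b)

def emb (z : ℕ × ℕ) : ℕ × ℕ := (2 * P.S * z.1, 2 * P.S * (z.1 + z.2))

def tailPts : List (ℕ × ℕ) :=
  (List.range P.B).reverse.flatMap P.snake ++ (List.range P.nV).flatMap fun b => P.rowLR b P.K

/-- transversal coordinate for barrier `b` -/
def gz (b : ℕ) (z : ℕ × ℕ) : ℤ :=
  (z.1 : ℤ) - P.S * (2 * b + 1) - (if b < P.nV then 0 else 1) * ((z.2 : ℤ) - 2 * P.S * P.B)

def Valid (b r : ℕ) : Prop := r < P.rho b ∨ (r = P.K ∧ b < P.nV)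

def InRow (b r : ℕ) (x : ℕ × ℕ) : Prop := ∃ j < P.N, x = P.pt b r j

def Bar (b : ℕ) (x : ℕ × ℕ) : Prop := ∃ r, P.Valid b r ∧ P.InRow b r x

def Left (b : ℕ) (z : ℕ × ℕ) : Prop := if b < P.nV then z.1 ≤ b else ¬ z.2 ≤ P.B - 1 - b

structure Good : Prop where
  nV_pos : 0 < P.nV
  nV_lt : P.nV < P.B
  N_pos : 0 < P.N
  rho_le : ∀ b, P.rho b ≤ P.K
  rho_odd : ∀ b < P.B, P.rho b % 2 = 1
  N_big : (P.K + 1) * (4 * P.k) + 1 < P.N

variable {P}

lemma N_le_S : P.N ≤ P.S := Nat.le_mul_of_pos_right _ (by omega)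

lemma gz_self (b r j : ℕ) : P.gz b (P.pt b r j) = j := by
  unfold gz pt
  split_ifs <;> push_cast <;> ring

lemma gz_gt {b b' : ℕ} (h : b < b') (r j : ℕ) : (P.S : ℤ) ≤ P.gz b (P.pt b' r j) := by
  have h1 : (P.S : ℤ) * (b + 1) ≤ P.S * b' := by
    apply mul_le_mul_of_nonneg_left _ (by positivity)
    exact_mod_cast h
  have h2 : (0 : ℤ) ≤ P.S * r := by positivity
  have h3 : (0 : ℤ) ≤ P.S := by positivity
  unfold gz pt
  split_ifs <;> push_cast <;> first | omega | nlinarith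

lemma gz_lt {b b' : ℕ} (h : b' < b) (r : ℕ) {j : ℕ} (hj : j < P.N) :
    P.gz b (P.pt b' r j) ≤ -(P.S : ℤ) := by
  have h1 : (P.S : ℤ) * (b' + 1) ≤ P.S * b := by
    apply mul_le_mul_of_nonneg_left _ (by positivity)
    exact_mod_cast h
  have h2 : (0 : ℤ) ≤ P.S * r := by positivity
  have h3 : (j : ℤ) ≤ P.S := by exact_mod_cast hj.le.trans N_le_S
  unfold gz pt
  split_ifs <;> push_cast <;> first | omega | nlinarith

lemma gz_emb_left {b : ℕ} (hb : b < P.B) {z : ℕ × ℕ} (h : P.Left b z) :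
    P.gz b (P.emb z) ≤ -(P.S : ℤ) := by
  have h3 : (0 : ℤ) ≤ P.S := by positivity
  unfold Left at h
  unfold gz emb
  split_ifs at h ⊢
  · have : (P.S : ℤ) * z.1 ≤ P.S * b := mul_le_mul_of_nonneg_left (by exact_mod_cast h) h3
    push_cast; nlinarith
  · have : (P.S : ℤ) * P.B ≤ P.S * (z.2 + b) :=
      mul_le_mul_of_nonneg_left (by exact_mod_cast (show P.B ≤ z.2 + b by omega)) h3
    push_cast; nlinarith

lemma gz_emb_right {b : ℕ} (hb : b < P.B) {z : ℕ × ℕ} (h : ¬ P.Left b z) :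
    (P.S : ℤ) ≤ P.gz b (P.emb z) := by
  have h3 : (0 : ℤ) ≤ P.S := by positivity
  unfold Left at h
  unfold gz emb
  split_ifs at h ⊢
  · have : (P.S : ℤ) * (b + 1) ≤ P.S * z.1 :=
      mul_le_mul_of_nonneg_left (by exact_mod_cast (show b + 1 ≤ z.1 by omega)) h3
    push_cast; nlinarith
  · have : (P.S : ℤ) * (z.2 + b + 1) ≤ P.S * P.B :=
      mul_le_mul_of_nonneg_left (by exact_mod_cast (show z.2 + b + 1 ≤ P.B by omega)) h3
    push_cast; nlinarith

lemma mem_rowLR {b r : ℕ} {x : ℕ × ℕ} : x ∈ P.rowLR b r ↔ P.InRow b r x := by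
  simp [rowLR, InRow, eq_comm]

lemma mem_row {b r : ℕ} {x : ℕ × ℕ} : x ∈ P.row b r ↔ P.InRow b r x := by
  unfold row
  split_ifs
  · rw [List.mem_reverse, mem_rowLR]
  · exact mem_rowLR

lemma mem_snake {b : ℕ} {x : ℕ × ℕ} : x ∈ P.snake b ↔ ∃ r < P.rho b, P.InRow b r x := by
  simp [snake, mem_row]

lemma mem_tailPts (hP : P.Good) {x : ℕ × ℕ} : x ∈ P.tailPts ↔ ∃ b < P.B, P.Bar b x := by
  simp only [tailPts, List.mem_append, List.mem_flatMap, List.mem_reverse, List.mem_range,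
    mem_snake, mem_rowLR, Bar, Valid]
  constructor
  · rintro (⟨b, hb, r, hr, h⟩ | ⟨b, hb, h⟩)
    · exact ⟨b, hb, r, Or.inl hr, h⟩
    · exact ⟨b, hb.trans hP.nV_lt, P.K, Or.inr ⟨rfl, hb⟩, h⟩
  · rintro ⟨b, hb, r, hr | ⟨rfl, hr⟩, h⟩
    · exact Or.inl ⟨b, hb, r, hr, h⟩
    · exact Or.inr ⟨b, hr, h⟩

lemma S_pos (hP : P.Good) : 0 < P.S := lt_of_lt_of_le hP.N_pos N_le_S

lemma pt_inj (hP : P.Good) {b r j b' r' j' : ℕ} (hj : j < P.N) (hj' : j' < P.N)
    (h : P.pt b r j = P.pt b' r' j') : b = b' ∧ r = r' ∧ j = j' := by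
  have hS := S_pos hP
  have h1 : b = b' := by
    rcases lt_trichotomy b b' with h1 | h1 | h1
    · have h2 := gz_gt (P := P) h1 r' j'
      rw [← h, gz_self] at h2
      have := N_le_S (P := P)
      omega
    · exact h1
    · have h2 := gz_gt (P := P) h1 r j
      rw [h, gz_self] at h2
      have := N_le_S (P := P)
      omega
  subst h1
  have h2 := congrArg (P.gz b) h
  rw [gz_self, gz_self] at h2
  have h3 := congrArg Prod.snd h
  simp only [pt] at h3
  have h4 := Nat.eq_of_mul_eq_mul_left (by omega) h3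
  omega

lemma InRow.unique (hP : P.Good) {b r b' r' : ℕ} {x : ℕ × ℕ} (h : P.InRow b r x)
    (h' : P.InRow b' r' x) : b = b' ∧ r = r' := by
  obtain ⟨j, hj, rfl⟩ := h
  obtain ⟨j', hj', h⟩ := h'
  exact ⟨(pt_inj hP hj hj' h).1, (pt_inj hP hj hj' h).2.1⟩

lemma nodup_rowLR (hP : P.Good) (b r : ℕ) : (P.rowLR b r).Nodup := by
  refine List.Nodup.map_on ?_ List.nodup_range
  intro j hj j' hj' h
  exact (pt_inj hP (List.mem_range.1 hj) (List.mem_range.1 hj') h).2.2

lemma nodup_row (hP : P.Good) (b r : ℕ) : (P.row b r).Nodup := by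
  unfold row
  split_ifs
  · exact List.nodup_reverse.2 (nodup_rowLR hP b r)
  · exact nodup_rowLR hP b r

lemma nodup_snake (hP : P.Good) (b : ℕ) : (P.snake b).Nodup := by
  unfold snake
  rw [List.nodup_flatMap]
  refine ⟨fun r _ => nodup_row hP b r, List.nodup_range.imp ?_⟩
  intro r r' hrr x hx hx'
  exact hrr ((mem_row.1 hx).unique hP (mem_row.1 hx')).2

lemma nodup_tailPts (hP : P.Good) : P.tailPts.Nodup := by
  unfold tailPts
  rw [List.nodup_append]
  refine ⟨?_, ?_, ?_⟩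
  · rw [List.nodup_flatMap]
    refine ⟨fun b _ => nodup_snake hP b, (List.nodup_reverse.2 List.nodup_range).imp ?_⟩
    intro b b' hbb x hx hx'
    obtain ⟨r, -, h⟩ := mem_snake.1 hx
    obtain ⟨r', -, h'⟩ := mem_snake.1 hx'
    exact hbb (h.unique hP h').1
  · rw [List.nodup_flatMap]
    refine ⟨fun b _ => nodup_rowLR hP b _, List.nodup_range.imp ?_⟩
    intro b b' hbb x hx hx'
    exact hbb ((mem_rowLR.1 hx).unique hP (mem_rowLR.1 hx')).1
  · rintro x hx _ hx' rfl
    obtain ⟨b, -, hx⟩ := List.mem_flatMap.1 hx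
    obtain ⟨b', -, hx'⟩ := List.mem_flatMap.1 hx'
    obtain ⟨r, hr, h⟩ := mem_snake.1 hx
    have := (h.unique hP (mem_rowLR.1 hx')).2
    have := hP.rho_le b
    omega

lemma emb_inj (hP : P.Good) : Function.Injective P.emb := by
  intro z w h
  have hS := S_pos hP
  simp only [emb, Prod.mk.injEq] at h
  have h1 := Nat.eq_of_mul_eq_mul_left (by omega) h.1
  have h2 := Nat.eq_of_mul_eq_mul_left (by omega) h.2
  exact Prod.ext h1 (by omega)

lemma emb_height (hP : P.Good) {z : ℕ × ℕ} (hz : z.1 + z.2 < P.B) :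
    (P.emb z).2 < 2 * P.S * P.B := by
  have hS := S_pos hP
  exact Nat.mul_lt_mul_of_pos_left hz (by omega)

lemma InRow.height {b r : ℕ} {x : ℕ × ℕ} (h : P.InRow b r x) : x.2 = 2 * P.S * (P.B + r) := by
  obtain ⟨j, -, rfl⟩ := h; rfl

lemma Valid.le (hP : P.Good) {b r : ℕ} (h : P.Valid b r) : r ≤ P.K := by
  rcases h with h | h
  · exact h.le.trans (hP.rho_le b)
  · exact h.1.le

lemma Bar.height (hP : P.Good) {b : ℕ} {x : ℕ × ℕ} (h : P.Bar b x) :
    2 * P.S * P.B ≤ x.2 ∧ x.2 ≤ 2 * P.S * (P.B + P.K) := by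
  obtain ⟨r, hr, h⟩ := h
  rw [h.height]
  exact ⟨Nat.mul_le_mul_left _ (by omega), Nat.mul_le_mul_left _ (by have := hr.le hP; omega)⟩

lemma nodup_all (hP : P.Good) {Q : List (ℕ × ℕ)} (hQ : Q.Nodup) (hQ' : ∀ z ∈ Q, z.1 + z.2 < P.B) :
    (Q.map P.emb ++ P.tailPts).Nodup := by
  rw [List.nodup_append]
  refine ⟨hQ.map (emb_inj hP), nodup_tailPts hP, ?_⟩
  rintro x hx _ hx' rfl
  obtain ⟨z, hz, rfl⟩ := List.mem_map.1 hx
  obtain ⟨b, -, hb⟩ := (mem_tailPts hP).1 hx'
  have := emb_height hP (hQ' z hz)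
  have := (hb.height hP).1
  omega

/-- the affine function of a line -/
def lineF (a b c : ℝ) (z : ℕ × ℕ) : ℝ := a * z.1 + b * z.2 + c

lemma lineF_sub (a b c : ℝ) (i : ℕ) (z w : ℕ × ℕ) :
    lineF a b c z - lineF a b c w = a * ((P.gz i z : ℝ) - P.gz i w) +
      (a * (if i < P.nV then 0 else 1) + b) * ((z.2 : ℝ) - w.2) := by
  unfold lineF gz
  split_ifs <;> push_cast <;> ring

lemma rowLR_mono {a : ℝ} (ha : 0 ≤ a) (b c : ℝ) (i r : ℕ) :
    (P.rowLR i r).Pairwise fun x y => lineF a b c x ≤ lineF a b c y := by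
  unfold rowLR
  rw [List.pairwise_map]
  refine List.pairwise_lt_range.imp ?_
  intro j j' h
  have h1 := lineF_sub (P := P) a b c i (P.pt i r j') (P.pt i r j)
  rw [gz_self, gz_self] at h1
  have h2 : ((P.pt i r j').2 : ℝ) - (P.pt i r j).2 = 0 := by simp [pt]
  rw [h2] at h1
  have h3 : (j : ℝ) ≤ j' := by exact_mod_cast h.le
  push_cast at h1
  nlinarith

lemma cross_row {a : ℝ} (ha : 0 ≤ a) (b c : ℝ) (i r : ℕ) : cross (lineF a b c) (P.row i r) ≤ 1 := by
  unfold row
  split_ifs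
  · exact cross_le_one_of_anti _ _ (List.pairwise_reverse.2 (rowLR_mono ha b c i r))
  · exact cross_le_one_of_mono _ _ (rowLR_mono ha b c i r)

lemma cR_snake {a : ℝ} (ha : 0 ≤ a) (b c : ℝ) (i n : ℕ) (X : List (ℕ × ℕ)) :
    cR (lineF a b c) ((List.range n).flatMap (P.row i) ++ X) ≤
      n + if n % 2 = 0 then cR (lineF a b c) X else cL (lineF a b c) X := by
  induction n generalizing X with
  | zero => simp
  | succ n ih =>
    rw [List.range_succ, List.flatMap_append, List.flatMap_singleton, List.append_assoc]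
    refine (ih _).trans ?_
    unfold row
    by_cases h : n % 2 = 0
    · rw [if_pos h, if_pos h, if_neg (by omega)]
      have := cR_append_anti (lineF a b c) (P.rowLR i n).reverse X
        (List.pairwise_reverse.2 (rowLR_mono ha b c i n))
      omega
    · rw [if_neg h, if_neg h, if_pos (by omega)]
      have := cL_append_mono (lineF a b c) (P.rowLR i n) X (rowLR_mono ha b c i n)
      omega

end Par

lemma cL_flatMap_le {α ι : Type*} (f : α → ℝ) (L : List ι) (g : ι → List α)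
    (h1 : ∀ i ∈ L, cross f (g i) ≤ 1)
    (h2 : L.Pairwise fun i j => ∀ x ∈ g i, ∀ y ∈ g j, f x ≤ f y) : cL f (L.flatMap g) ≤ 3 := by
  induction L with
  | nil => simp [cL]
  | cons i L ih =>
    rw [List.pairwise_cons] at h2
    rw [List.flatMap_cons]
    by_cases h : ∀ x ∈ g i, f x ≤ 0
    · exact (cL_append_nonpos f _ _ h).trans (ih (fun j hj => h1 j (List.mem_cons_of_mem _ hj)) h2.2)
    · push Not at h
      obtain ⟨x, hx, h⟩ := h
      have h3 : cross f (L.flatMap g) = 0 := by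
        apply cross_eq_zero_of_nonneg
        intro y hy
        obtain ⟨j, hj, hy⟩ := List.mem_flatMap.1 hy
        exact h.le.trans (h2.1 j hj x hx y hy)
      have h4 := cL_le f (g i ++ L.flatMap g)
      have h5 : cross f (g i ++ L.flatMap g) ≤ cross f (g i) + 1 + cross f (L.flatMap g) :=
        cnt_append_le _ _ _
      have h6 := h1 i List.mem_cons_self
      omega

lemma cross_map_append_le {α β : Type*} (f : β → ℝ) (e : α → β) (A : α → Prop) (L : List α)
    (zR : α) (hR : ¬ A zR) (h : ∀ z ∈ L, (A z → f (e z) < 0) ∧ (¬ A z → 0 < f (e z)))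
    (rest : List β) : cross f (L.map e ++ rest) ≤ cnt (Cut A) (L ++ [zR]) + cR f rest := by
  induction L with
  | nil => simpa using cross_le_cR f rest
  | cons z L ih =>
    have hz := h z List.mem_cons_self
    cases L with
    | nil =>
      have h1 := cross_cons_le_cR f (e z) rest
      have h2 : ind (f (e z) < 0) ≤ ind (Cut A z zR) := ind_mono fun h3 => by
        refine Or.inl ⟨?_, hR⟩
        by_contra h4
        have := hz.2 h4
        linarith
      simp only [List.map_cons, List.map_nil, List.cons_append, List.nil_append, cnt_cons_cons,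
        cnt_single]
      omega
    | cons w L =>
      have hw := h w (List.mem_cons_of_mem _ List.mem_cons_self)
      have h1 := ih fun y hy => h y (List.mem_cons_of_mem _ hy)
      have h2 : ind (f (e z) * f (e w) < 0) ≤ ind (Cut A z w) := ind_mono fun h3 => by
        by_cases h4 : A z <;> by_cases h5 : A w
        · have := mul_pos_of_neg_of_neg (hz.1 h4) (hw.1 h5); linarith
        · exact Or.inl ⟨h4, h5⟩
        · exact Or.inr ⟨h4, h5⟩
        · have := mul_pos (hz.2 h4) (hw.2 h5); linarith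
      simp only [cross, List.map_cons, List.cons_append, cnt_cons_cons] at h1 ⊢
      omega

namespace Par

variable {P : Par}

lemma cross_snake_of_steep (hP : P.Good) {a : ℝ} (ha : 0 ≤ a) (b c : ℝ) (i : ℕ)
    (h : a * P.N ≤ |a * (if i < P.nV then 0 else 1) + b| * (2 * P.S)) :
    cross (lineF a b c) (P.snake i) ≤ 3 := by
  set β := a * (if i < P.nV then 0 else 1) + b with hβ
  have key : ∀ r r', r < r' → ∀ x ∈ P.row i r, ∀ y ∈ P.row i r',
      ∃ s t : ℝ, |s| ≤ P.N ∧ 2 * P.S ≤ t ∧ lineF a b c y - lineF a b c x = a * s + β * t := by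
    intro r r' hrr x hx y hy
    obtain ⟨j, hj, rfl⟩ := mem_row.1 hx
    obtain ⟨j', hj', rfl⟩ := mem_row.1 hy
    refine ⟨_, _, ?_, ?_, lineF_sub (P := P) a b c i _ _⟩
    · rw [gz_self, gz_self]
      have h1 : (j : ℝ) ≤ P.N := by exact_mod_cast hj.le
      have h2 : (j' : ℝ) ≤ P.N := by exact_mod_cast hj'.le
      have h3 : (0 : ℝ) ≤ j := by positivity
      have h4 : (0 : ℝ) ≤ j' := by positivity
      push_cast
      rw [abs_le]; constructor <;> linarith
    · have h1 : (r : ℝ) + 1 ≤ r' := by exact_mod_cast hrr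
      have h2 : (0 : ℝ) ≤ P.S := by positivity
      simp only [pt]
      push_cast
      nlinarith
  rcases le_total 0 β with h0 | h0
  · rw [abs_of_nonneg h0] at h
    refine (cross_le_cL _ _).trans (cL_flatMap_le _ _ _ (fun r _ => cross_row ha b c i r)
      (List.pairwise_lt_range.imp fun {r r'} hrr x hx y hy => ?_))
    obtain ⟨s, t, h1, h2, h3⟩ := key r r' hrr x hx y hy
    have := (abs_le.1 h1).1
    nlinarith
  · rw [abs_of_nonpos h0] at h
    rw [← cross_neg]
    refine (cross_le_cL _ _).trans (cL_flatMap_le _ _ _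
      (fun r _ => by rw [cross_neg]; exact cross_row ha b c i r)
      (List.pairwise_lt_range.imp fun {r r'} hrr x hx y hy => ?_))
    obtain ⟨s, t, h1, h2, h3⟩ := key r r' hrr x hx y hy
    have := (abs_le.1 h1).2
    nlinarith

lemma sign_of_aligned (hP : P.Good) {a : ℝ} (ha : 0 ≤ a) (b c : ℝ) (i : ℕ)
    (h : |a * (if i < P.nV then 0 else 1) + b| * (2 * P.S) < a * P.N) {p q : ℕ × ℕ}
    (hp : p ∈ P.snake i) (hq : q ∈ P.snake i) (hp' : 0 < lineF a b c p) (hq' : lineF a b c q < 0)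
    {z : ℕ × ℕ} (hz : z.2 ≤ 2 * P.S * (P.B + P.K)) :
    ((P.S : ℤ) ≤ P.gz i z → 0 < lineF a b c z) ∧ (P.gz i z ≤ -(P.S : ℤ) → lineF a b c z < 0) := by
  set β := a * (if i < P.nV then 0 else 1) + b with hβ
  have key : ∀ w ∈ P.snake i, ∃ j : ℝ, 0 ≤ j ∧ j ≤ P.N ∧
      |lineF a b c z - lineF a b c w - a * (P.gz i z - j)| ≤ a * P.N * (P.B + P.K) := by
    intro w hw
    obtain ⟨r, hr, hw⟩ := mem_snake.1 hw
    have h1 := (Bar.height hP ⟨r, Or.inl hr, hw⟩).2
    obtain ⟨j, hj, rfl⟩ := hw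
    refine ⟨j, by positivity, by exact_mod_cast hj.le, ?_⟩
    rw [lineF_sub (P := P) a b c i, gz_self, ← hβ]
    push_cast
    rw [add_sub_cancel_left, abs_mul]
    have h2 : |(z.2 : ℝ) - (P.pt i r j).2| ≤ 2 * P.S * (P.B + P.K) := by
      have h3 : (z.2 : ℝ) ≤ 2 * P.S * (P.B + P.K) := by exact_mod_cast hz
      have h4 : ((P.pt i r j).2 : ℝ) ≤ 2 * P.S * (P.B + P.K) := by exact_mod_cast h1
      have h5 : (0 : ℝ) ≤ z.2 := by positivity
      have h6 : (0 : ℝ) ≤ (P.pt i r j).2 := by positivity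
      rw [abs_le]; constructor <;> linarith
    calc |β| * |(z.2 : ℝ) - (P.pt i r j).2| ≤ |β| * (2 * P.S * (P.B + P.K)) :=
          mul_le_mul_of_nonneg_left h2 (abs_nonneg _)
      _ = |β| * (2 * P.S) * (P.B + P.K) := by ring
      _ ≤ a * P.N * (P.B + P.K) := mul_le_mul_of_nonneg_right h.le (by positivity)
  have hS : (P.S : ℝ) = P.N * (P.B + P.K + 1) := by simp [S]
  constructor
  · intro hg
    obtain ⟨j, h1, h2, h3⟩ := key p hp
    have h4 : (P.S : ℝ) ≤ P.gz i z := by exact_mod_cast hg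
    have h5 := (abs_le.1 h3).1
    have h6 : a * (P.N * (P.B + P.K)) ≤ a * (P.gz i z - j) :=
      mul_le_mul_of_nonneg_left (by linarith) ha
    linarith
  · intro hg
    obtain ⟨j, h1, h2, h3⟩ := key q hq
    have h4 : (P.gz i z : ℝ) ≤ -P.S := by exact_mod_cast hg
    have h5 := (abs_le.1 h3).2
    have h7 : (0 : ℝ) ≤ P.N := by positivity
    have h6 : a * (P.gz i z - j) ≤ a * (-(P.N * (P.B + P.K))) :=
      mul_le_mul_of_nonneg_left (by linarith) ha
    linarith

lemma cR_tailPts (hP : P.Good) {a : ℝ} (ha : 0 ≤ a) (b c : ℝ) {i : ℕ} (hi : i < P.B)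
    (hs : ∀ z : ℕ × ℕ, z.2 ≤ 2 * P.S * (P.B + P.K) →
      ((P.S : ℤ) ≤ P.gz i z → 0 < lineF a b c z) ∧ (P.gz i z ≤ -(P.S : ℤ) → lineF a b c z < 0)) :
    cR (lineF a b c) P.tailPts ≤ P.rho i + ind (i < P.nV) := by
  have hpos : ∀ i' x, i < i' → P.Bar i' x → 0 ≤ lineF a b c x := by
    intro i' x h hx
    have h1 := (hx.height hP).2
    obtain ⟨r, -, j, -, rfl⟩ := hx
    exact ((hs _ h1).1 (gz_gt h r j)).le
  have hneg : ∀ i' x, i' < i → P.Bar i' x → lineF a b c x ≤ 0 := by
    intro i' x h hx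
    have h1 := (hx.height hP).2
    obtain ⟨r, -, j, hj, rfl⟩ := hx
    exact ((hs _ h1).2 (gz_lt h r hj)).le
  have hsn : ∀ i' x, x ∈ P.snake i' → P.Bar i' x := fun i' x hx => by
    obtain ⟨r, hr, h⟩ := mem_snake.1 hx
    exact ⟨r, Or.inl hr, h⟩
  have hex : ∀ i' x, i' < P.nV → x ∈ P.rowLR i' P.K → P.Bar i' x := fun i' x h hx =>
    ⟨P.K, Or.inr ⟨rfl, h⟩, mem_rowLR.1 hx⟩
  have h2 : cL (lineF a b c) ((List.range P.nV).flatMap fun b => P.rowLR b P.K) ≤ ind (i < P.nV) := by
    by_cases h : i < P.nV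
    · obtain ⟨M₁, M₂, hM⟩ := List.append_of_mem (List.mem_range.2 h)
      have h3 := List.pairwise_lt_range (n := P.nV)
      have h4 : ∀ y ∈ M₁ ++ i :: M₂, y < P.nV := fun y hy => List.mem_range.1 (hM ▸ hy)
      rw [hM] at h3 ⊢
      rw [List.pairwise_append, List.pairwise_cons] at h3
      rw [List.flatMap_append, List.flatMap_cons, ind_pos h]
      refine (cL_append_nonpos _ _ _ ?_).trans ((cL_append_mono _ _ _ (rowLR_mono ha b c _ _)).trans ?_)
      · intro x hx
        obtain ⟨y, hy, hx⟩ := List.mem_flatMap.1 hx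
        exact hneg y x (h3.2.2 y hy i List.mem_cons_self) (hex y x (h4 y (by simp [hy])) hx)
      · have h5 := cR_append_nonneg (lineF a b c) (M₂.flatMap fun b => P.rowLR b P.K) [] (by
          intro x hx
          obtain ⟨y, hy, hx⟩ := List.mem_flatMap.1 hx
          exact hpos y x (h3.2.1.1 y hy) (hex y x (h4 y (by simp [hy])) hx))
        rw [List.append_nil] at h5
        have h6 : cR (lineF a b c) [] = 0 := rfl
        omega
    · have h5 := cL_append_nonpos (lineF a b c) ((List.range P.nV).flatMap fun b => P.rowLR b P.K)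
        [] (by
          intro x hx
          obtain ⟨y, hy, hx⟩ := List.mem_flatMap.1 hx
          rw [List.mem_range] at hy
          exact hneg y x (by omega) (hex y x hy hx))
      rw [List.append_nil] at h5
      have h6 : cL (lineF a b c) [] = 0 := rfl
      omega
  obtain ⟨L₁, L₂, hL⟩ := List.append_of_mem (List.mem_reverse.2 (List.mem_range.2 hi))
  have h3 : (List.range P.B).reverse.Pairwise (fun x y => y < x) :=
    List.pairwise_reverse.2 List.pairwise_lt_range
  unfold tailPts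
  rw [hL] at h3 ⊢
  rw [List.pairwise_append, List.pairwise_cons] at h3
  rw [List.flatMap_append, List.flatMap_cons, List.append_assoc, List.append_assoc]
  refine (cR_append_nonneg _ _ _ ?_).trans ((cR_snake ha b c i _ _).trans ?_)
  · intro x hx
    obtain ⟨y, hy, hx⟩ := List.mem_flatMap.1 hx
    exact hpos y x (h3.2.2 y hy i List.mem_cons_self) (hsn y x hx)
  · rw [if_neg (by have := hP.rho_odd i hi; omega)]
    refine Nat.add_le_add_left ((cL_append_nonpos _ _ _ ?_).trans h2) _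
    intro x hx
    obtain ⟨y, hy, hx⟩ := List.mem_flatMap.1 hx
    exact hneg y x (h3.2.1.1 y hy) (hsn y x hx)

theorem complete (hP : P.Good) (Q : List (ℕ × ℕ)) (hQ : ∀ z ∈ Q, z.1 + z.2 < P.B)
    (hcap : ∀ i < P.B, cnt (Cut (P.Left i)) (Q ++ [(P.nV, 0)]) + P.rho i + ind (i < P.nV) ≤ P.k)
    (hk : Q.length + 6 * P.B + 2 ≤ P.k) (a b c : ℝ) :
    cross (lineF a b c) (Q.map P.emb ++ P.tailPts) ≤ P.k := by
  wlog ha : 0 ≤ a generalizing a b c
  · have h1 := this (-a) (-b) (-c) (by linarith)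
    rw [← cross_neg] at h1
    convert h1 using 2
    ext z
    simp only [lineF]; ring
  by_cases hal : ∃ i < P.B, |a * (if i < P.nV then 0 else 1) + b| * (2 * P.S) < a * P.N ∧
      (∃ p ∈ P.snake i, 0 < lineF a b c p) ∧ ∃ q ∈ P.snake i, lineF a b c q < 0
  · obtain ⟨i, hi, h, ⟨p, hp, hp'⟩, q, hq, hq'⟩ := hal
    have hs := fun z hz => sign_of_aligned hP ha b c i h hp hq hp' hq' (z := z) hz
    have h1 := cross_map_append_le (lineF a b c) P.emb (P.Left i) Q (P.nV, 0)
      (by unfold Left; split_ifs <;> simp <;> omega) (by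
        intro z hz
        have h2 : (P.emb z).2 ≤ 2 * P.S * (P.B + P.K) :=
          (emb_height hP (hQ z hz)).le.trans (Nat.mul_le_mul_left _ (by omega))
        exact ⟨fun h => (hs _ h2).2 (gz_emb_left hi h), fun h => (hs _ h2).1 (gz_emb_right hi h)⟩)
      P.tailPts
    have h2 := cR_tailPts hP ha b c hi hs
    have h3 := hcap i hi
    omega
  · push Not at hal
    have h1 : ∀ i ∈ (List.range P.B).reverse, cross (lineF a b c) (P.snake i) ≤ 3 := by
      intro i hi
      rw [List.mem_reverse, List.mem_range] at hi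
      by_cases h : |a * (if i < P.nV then 0 else 1) + b| * (2 * P.S) < a * P.N
      · by_cases h' : ∃ p ∈ P.snake i, 0 < lineF a b c p
        · rw [cross_eq_zero_of_nonneg _ _ (hal i hi h h')]; omega
        · push Not at h'
          rw [cross_eq_zero_of_nonpos _ _ h']; omega
      · exact cross_snake_of_steep hP ha b c i (not_lt.1 h)
    have h2 := cnt_flatMap_le _ _ _ 3 h1
    have h3 := cnt_flatMap_le _ (List.range P.nV) (fun i => P.rowLR i P.K) 1
      (fun i _ => cross_le_one_of_mono _ _ (rowLR_mono ha b c i _))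
    have h4 := cnt_append_le (fun x y => lineF a b c x * lineF a b c y < 0) (Q.map P.emb) P.tailPts
    have h5 := cnt_le_length (fun x y => lineF a b c x * lineF a b c y < 0) (Q.map P.emb)
    have h6 := cnt_append_le (fun x y => lineF a b c x * lineF a b c y < 0)
      ((List.range P.B).reverse.flatMap P.snake) ((List.range P.nV).flatMap fun i => P.rowLR i P.K)
    have h7 := hP.nV_lt
    simp only [List.length_reverse, List.length_range, List.length_map] at h2 h3 h5
    unfold cross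
    unfold tailPts at h4 ⊢
    omega

end Par

end Pool.Agent.MP_a4672b_lc
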