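import Pool.Agent.MP_a4672b_lc.Cross
import Pool.Agent.MP_2e8011_lc.CookLevin

namespace Pool.Agent.MP_a4672b_lc

open Pool.Agent.MP_2e8011_lc

/-- a gadget `(d, p, q, u)` with the two intervals `[d, p)` and `[q, u)` -/
abbrev Gad := ℕ × ℕ × ℕ × ℕ

def WF (H : ℕ) (g : Gad) : Prop :=
  g.1 ≤ g.2.1 ∧ g.2.1 ≤ g.2.2.1 ∧ g.2.2.1 ≤ g.2.2.2 ∧ g.2.2.2 ≤ H ∧ g.1 < g.2.2.2

def charged (h : ℕ) (x : Gad × Bool) : Bool :=
  if x.2 then decide (x.1.2.2.1 ≤ h ∧ h < x.1.2.2.2) else decide (x.1.1 ≤ h ∧ h < x.1.2.1)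

/-- the interval choice problem -/
def Solvable (G : List Gad) (lens : List ℕ) : Prop :=
  ∃ GB : List (Gad × Bool), GB.map Prod.fst = G ∧
    ∀ h < lens.length, GB.countP (charged h) < lens.getD h 1

def base (h : ℕ) (g : Gad) : ℕ :=
  if h < g.1 then 2 else if h < g.2.2.1 then 4 else if h < g.2.2.2 then 2 else 0

def gpath (c : ℕ) (g : Gad) (oA oB : Bool) : List (ℕ × ℕ) :=
  [(c, 0), (c + 1, g.2.1)] ++
    (if oA then [(c + 2, g.2.2.2), (c + 2, g.1)] else [(c + 2, g.1), (c + 2, g.2.2.2)]) ++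
    (if oB then [(c + 3, g.2.2.2), (c + 3, g.1)] else [(c + 3, g.1), (c + 3, g.2.2.2)]) ++
    [(c + 4, g.2.2.1)]

def lpath : ℕ → List (Gad × Bool × Bool) → List (ℕ × ℕ)
  | c, [] => [(c, 0)]
  | c, x :: G => gpath c x.1 x.2.1 x.2.2 ++ lpath (c + 5) G

lemma lpath_eq_cons (c : ℕ) (G : List (Gad × Bool × Bool)) : ∃ t, lpath c G = (c, 0) :: t := by
  cases G with
  | nil => exact ⟨[], rfl⟩
  | cons x G => exact ⟨_, rfl⟩

lemma lpath_eq_concat (c : ℕ) (G : List (Gad × Bool × Bool)) :
    ∃ t, lpath c G = t ++ [(c + 5 * G.length, 0)] := by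
  induction G generalizing c with
  | nil => exact ⟨[], rfl⟩
  | cons x G ih =>
    obtain ⟨t, ht⟩ := ih (c + 5)
    refine ⟨gpath c x.1 x.2.1 x.2.2 ++ t, ?_⟩
    rw [lpath, ht, List.append_assoc, List.length_cons]
    congr 4
    ring

lemma length_lpath (c : ℕ) (G : List (Gad × Bool × Bool)) :
    (lpath c G).length = 7 * G.length + 1 := by
  induction G generalizing c with
  | nil => rfl
  | cons x G ih =>
    obtain ⟨g, a, b⟩ := x
    rw [lpath, List.length_append, ih]
    cases a <;> cases b <;> simp [gpath] <;> omega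

lemma mem_gpath {c : ℕ} {g : Gad} {oA oB : Bool} {H : ℕ} (hg : WF H g) {z : ℕ × ℕ}
    (hz : z ∈ gpath c g oA oB) : c ≤ z.1 ∧ z.1 < c + 5 ∧ z.2 ≤ H := by
  obtain ⟨h1, h2, h3, h4, h5⟩ := hg
  cases oA <;> cases oB <;> simp [gpath] at hz <;>
    rcases hz with rfl | rfl | rfl | rfl | rfl | rfl | rfl <;> simp <;> omega

lemma mem_lpath {c : ℕ} {G : List (Gad × Bool × Bool)} {H : ℕ} (hG : ∀ x ∈ G, WF H x.1)
    {z : ℕ × ℕ} (hz : z ∈ lpath c G) : c ≤ z.1 ∧ z.1 ≤ c + 5 * G.length ∧ z.2 ≤ H := by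
  induction G generalizing c with
  | nil => simp only [lpath, List.mem_singleton] at hz; subst hz; simp
  | cons x G ih =>
    rw [lpath, List.mem_append] at hz
    rw [List.length_cons]
    rcases hz with hz | hz
    · have := mem_gpath (hG x List.mem_cons_self) hz
      omega
    · have := ih (fun y hy => hG y (List.mem_cons_of_mem _ hy)) hz
      omega

lemma nodup_lpath {c : ℕ} {G : List (Gad × Bool × Bool)} {H : ℕ} (hG : ∀ x ∈ G, WF H x.1) :
    (lpath c G).Nodup := by
  induction G generalizing c with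
  | nil => simp [lpath]
  | cons x G ih =>
    have h1 := fun y hy => hG y (List.mem_cons_of_mem _ hy)
    rw [lpath, List.nodup_append]
    refine ⟨?_, ih h1, ?_⟩
    · obtain ⟨g, a, b⟩ := x
      have := (hG _ List.mem_cons_self).2.2.2.2
      simp only at this
      cases a <;> cases b <;> simp [gpath] <;> omega
    · intro a ha b hb hab
      have h2 := mem_gpath (hG x List.mem_cons_self) ha
      have h3 := mem_lpath h1 hb
      subst hab
      omega

lemma sorted_lpath {c : ℕ} {G : List (Gad × Bool × Bool)} {H : ℕ} (hG : ∀ x ∈ G, WF H x.1) :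
    (lpath c G).Pairwise fun x y => x.1 ≤ y.1 := by
  induction G generalizing c with
  | nil => simp [lpath]
  | cons x G ih =>
    have h1 := fun y hy => hG y (List.mem_cons_of_mem _ hy)
    rw [lpath, List.pairwise_append]
    refine ⟨?_, ih h1, ?_⟩
    · obtain ⟨g, a, b⟩ := x
      cases a <;> cases b <;> simp [gpath]
    · intro a ha b hb
      have h2 := mem_gpath (hG x List.mem_cons_self) ha
      have h3 := mem_lpath h1 hb
      omega

lemma lpath_perm (c : ℕ) (G : List (Gad × Bool × Bool)) :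
    (lpath c G).Perm (lpath c ((G.map Prod.fst).map fun g => (g, true, true))) := by
  induction G generalizing c with
  | nil => rfl
  | cons x G ih =>
    simp only [List.map_cons, lpath]
    refine List.Perm.append ?_ (ih _)
    obtain ⟨g, a, b⟩ := x
    unfold gpath
    refine List.Perm.append (List.Perm.append (List.Perm.append (List.Perm.refl _) ?_) ?_)
      (List.Perm.refl _)
    · cases a
      · exact List.Perm.swap _ _ _
      · rfl
    · cases b
      · exact List.Perm.swap _ _ _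
      · rfl

lemma split_sorted {α : Type*} (key : α → ℕ) {l l₁ l₂ : List α} (i : ℕ)
    (hs : l.Pairwise fun x y => key x ≤ key y) (hp : l.Perm (l₁ ++ l₂))
    (h₁ : ∀ x ∈ l₁, key x ≤ i) (h₂ : ∀ x ∈ l₂, i < key x) :
    ∃ a b, l = a ++ b ∧ a.Perm l₁ ∧ b.Perm l₂ ∧ b.Pairwise fun x y => key x ≤ key y := by
  have h1 : l = l.filter (fun x => key x ≤ i) ++ l.filter (fun x => i < key x) := by
    clear hp
    induction l with
    | nil => rfl
    | cons x l ih =>
      rw [List.pairwise_cons] at hs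
      by_cases hx : key x ≤ i
      · rw [List.filter_cons_of_pos (by simpa), List.filter_cons_of_neg (by simpa),
          List.cons_append, ← ih hs.2]
      · have h3 : ∀ y ∈ x :: l, i < key y := by
          intro y hy
          rcases List.mem_cons.1 hy with rfl | hy
          · omega
          · have := hs.1 y hy; omega
        rw [List.filter_eq_nil_iff.2 (fun y hy => by have := h3 y hy; simpa),
          List.filter_eq_self.2 (fun y hy => by have := h3 y hy; simpa), List.nil_append]
  refine ⟨_, _, h1, ?_, ?_, hs.filter _⟩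
  · have := hp.filter (fun x => key x ≤ i)
    rwa [List.filter_append, (List.filter_eq_self (l := l₁)).2 (fun y hy => by have := h₁ y hy; simpa),
      (List.filter_eq_nil_iff (l := l₂)).2 (fun y hy => by have := h₂ y hy; simpa),
      List.append_nil] at this
  · have := hp.filter (fun x => i < key x)
    rwa [List.filter_append,
      (List.filter_eq_nil_iff (l := l₁)).2 (fun y hy => by have := h₁ y hy; simpa),
      (List.filter_eq_self (l := l₂)).2 (fun y hy => by have := h₂ y hy; simpa),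
      List.nil_append] at this

lemma wf_map {H : ℕ} {G : List Gad} (hG : ∀ g ∈ G, WF H g) :
    ∀ x ∈ G.map (fun g => (g, true, true)), WF H x.1 := by
  intro x hx
  obtain ⟨g, hg, rfl⟩ := List.mem_map.1 hx
  exact hG g hg

lemma exists_lpath_of_sorted {H : ℕ} (G : List Gad) (hG : ∀ g ∈ G, WF H g) (c : ℕ)
    (l : List (ℕ × ℕ)) (hs : l.Pairwise fun x y => x.1 ≤ y.1)
    (hp : l.Perm (lpath c (G.map fun g => (g, true, true)))) :
    ∃ G' : List (Gad × Bool × Bool), G'.map Prod.fst = G ∧ l = lpath c G' := by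
  induction G generalizing c l with
  | nil => exact ⟨[], rfl, List.perm_singleton.1 hp⟩
  | cons g G ih =>
    have h1 := fun y hy => hG y (List.mem_cons_of_mem _ hy)
    have hrest : ∀ z ∈ lpath (c + 5) (G.map fun g => (g, true, true)), c + 5 ≤ z.1 := fun z hz =>
      (mem_lpath (H := H) (wf_map h1) hz).1
    set R := lpath (c + 5) (G.map fun g => (g, true, true)) with hR
    have hp0 : l.Perm ([(c, 0)] ++ ([(c + 1, g.2.1)] ++ ([(c + 2, g.2.2.2), (c + 2, g.1)] ++
        ([(c + 3, g.2.2.2), (c + 3, g.1)] ++ ([(c + 4, g.2.2.1)] ++ R))))) := hp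
    obtain ⟨a₀, l₁, rfl, ha₀, hp1, hs1⟩ := split_sorted Prod.fst c hs hp0 (by simp) (by
      intro x hx
      simp only [List.cons_append, List.nil_append, List.mem_cons] at hx
      rcases hx with rfl | rfl | rfl | rfl | rfl | rfl | hx
      all_goals first | (have := hrest x hx; omega) | simp)
    obtain ⟨a₁, l₂, rfl, ha₁, hp2, hs2⟩ := split_sorted Prod.fst (c + 1) hs1 hp1 (by simp) (by
      intro x hx
      simp only [List.cons_append, List.nil_append, List.mem_cons] at hx
      rcases hx with rfl | rfl | rfl | rfl | rfl | hx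
      all_goals first | (have := hrest x hx; omega) | simp)
    obtain ⟨a₂, l₃, rfl, ha₂, hp3, hs3⟩ := split_sorted Prod.fst (c + 2) hs2 hp2 (by simp) (by
      intro x hx
      simp only [List.cons_append, List.nil_append, List.mem_cons] at hx
      rcases hx with rfl | rfl | rfl | hx
      all_goals first | (have := hrest x hx; omega) | simp)
    obtain ⟨a₃, l₄, rfl, ha₃, hp4, hs4⟩ := split_sorted Prod.fst (c + 3) hs3 hp3 (by simp) (by
      intro x hx
      simp only [List.cons_append, List.nil_append, List.mem_cons] at hx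
      rcases hx with rfl | hx
      all_goals first | (have := hrest x hx; omega) | simp)
    obtain ⟨a₄, l₅, rfl, ha₄, hp5, hs5⟩ := split_sorted Prod.fst (c + 4) hs4 hp4 (by simp) (by
      intro x hx
      have := hrest x hx; omega)
    obtain ⟨G', hG', rfl⟩ := ih h1 (c + 5) l₅ hs5 hp5
    rw [List.perm_singleton] at ha₀ ha₁ ha₄
    rw [List.perm_pair] at ha₂ ha₃
    subst ha₀ ha₁ ha₄
    rcases ha₂ with rfl | rfl <;> rcases ha₃ with rfl | rfl
    · exact ⟨(g, true, true) :: G', by simp [hG'], rfl⟩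
    · exact ⟨(g, true, false) :: G', by simp [hG'], rfl⟩
    · exact ⟨(g, false, true) :: G', by simp [hG'], rfl⟩
    · exact ⟨(g, false, false) :: G', by simp [hG'], rfl⟩

/-- the crossing number of a level inside one gadget -/
noncomputable def gcnt (h : ℕ) (x : Gad × Bool × Bool) : ℕ :=
  cnt (Cut fun z : ℕ × ℕ => z.2 ≤ h) (gpath 0 x.1 x.2.1 x.2.2 ++ [(0, 0)])

lemma cnt_gpath (h c c' : ℕ) (x : Gad × Bool × Bool) :
    cnt (Cut fun z : ℕ × ℕ => z.2 ≤ h) (gpath c x.1 x.2.1 x.2.2 ++ [(c', 0)]) = gcnt h x := by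
  obtain ⟨g, a, b⟩ := x
  unfold gcnt
  cases a <;> cases b <;> simp [gpath, cnt_cons_cons, Cut]

lemma cnt_lpath (h c : ℕ) (G : List (Gad × Bool × Bool)) :
    cnt (Cut fun z : ℕ × ℕ => z.2 ≤ h) (lpath c G) = (G.map (gcnt h)).sum := by
  induction G generalizing c with
  | nil => simp [lpath]
  | cons x G ih =>
    obtain ⟨t, ht⟩ := lpath_eq_cons (c + 5) G
    rw [lpath, ht, cnt_append_cons, ← ht, ih, cnt_gpath]
    simp

lemma gcnt_ge {H h : ℕ} {x : Gad × Bool × Bool} (hx : WF H x.1) :
    base h x.1 + 2 * (if charged h (x.1, x.2.1 && !x.2.2) then 1 else 0) ≤ gcnt h x := by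
  obtain ⟨⟨d, p, q, u⟩, a, b⟩ := x
  obtain ⟨h1, h2, h3, h4, h5⟩ := hx
  simp only at h1 h2 h3 h4 h5
  unfold gcnt base charged
  have e1 : d ≤ h ∨ h < d := by omega
  have e2 : p ≤ h ∨ h < p := by omega
  have e3 : q ≤ h ∨ h < q := by omega
  have e4 : u ≤ h ∨ h < u := by omega
  cases a <;> cases b <;> rcases e1 with e1 | e1 <;> rcases e2 with e2 | e2 <;>
    rcases e3 with e3 | e3 <;> rcases e4 with e4 | e4 <;>
    first
      | omega
      | simp [gpath, cnt_cons_cons, Cut, ind, e1, e2, e3, e4, not_le.2 e1, not_le.2 e2,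
          not_le.2 e3, not_le.2 e4]
      | simp [gpath, cnt_cons_cons, Cut, ind, e1, e2, e3, e4, not_lt.2 e1, not_le.2 e2,
          not_le.2 e3, not_le.2 e4]
      | simp [gpath, cnt_cons_cons, Cut, ind, e1, e2, e3, e4, not_lt.2 e1, not_lt.2 e2,
          not_le.2 e3, not_le.2 e4]
      | simp [gpath, cnt_cons_cons, Cut, ind, e1, e2, e3, e4, not_lt.2 e1, not_lt.2 e2,
          not_lt.2 e3, not_le.2 e4]
      | simp [gpath, cnt_cons_cons, Cut, ind, e1, e2, e3, e4, not_lt.2 e1, not_lt.2 e2,
          not_lt.2 e3, not_lt.2 e4]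

lemma gcnt_eq {H h : ℕ} {g : Gad} (b : Bool) (hx : WF H g) :
    gcnt h (g, b, !b) = base h g + 2 * (if charged h (g, b) then 1 else 0) := by
  obtain ⟨d, p, q, u⟩ := g
  obtain ⟨h1, h2, h3, h4, h5⟩ := hx
  simp only at h1 h2 h3 h4 h5
  unfold gcnt base charged
  have e1 : d ≤ h ∨ h < d := by omega
  have e2 : p ≤ h ∨ h < p := by omega
  have e3 : q ≤ h ∨ h < q := by omega
  have e4 : u ≤ h ∨ h < u := by omega
  cases b <;> rcases e1 with e1 | e1 <;> rcases e2 with e2 | e2 <;>
    rcases e3 with e3 | e3 <;> rcases e4 with e4 | e4 <;>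
    first
      | omega
      | simp [gpath, cnt_cons_cons, Cut, ind, e1, e2, e3, e4, not_le.2 e1, not_le.2 e2,
          not_le.2 e3, not_le.2 e4]
      | simp [gpath, cnt_cons_cons, Cut, ind, e1, e2, e3, e4, not_lt.2 e1, not_le.2 e2,
          not_le.2 e3, not_le.2 e4]
      | simp [gpath, cnt_cons_cons, Cut, ind, e1, e2, e3, e4, not_lt.2 e1, not_lt.2 e2,
          not_le.2 e3, not_le.2 e4]
      | simp [gpath, cnt_cons_cons, Cut, ind, e1, e2, e3, e4, not_lt.2 e1, not_lt.2 e2,
          not_lt.2 e3, not_le.2 e4]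
      | simp [gpath, cnt_cons_cons, Cut, ind, e1, e2, e3, e4, not_lt.2 e1, not_lt.2 e2,
          not_lt.2 e3, not_lt.2 e4]

lemma sum_gcnt_ge {H h : ℕ} (G : List (Gad × Bool × Bool)) (hG : ∀ x ∈ G, WF H x.1) :
    ((G.map Prod.fst).map (base h)).sum +
      2 * (G.map fun x => (x.1, x.2.1 && !x.2.2)).countP (charged h) ≤ (G.map (gcnt h)).sum := by
  induction G with
  | nil => simp
  | cons x G ih =>
    have h1 := ih fun y hy => hG y (List.mem_cons_of_mem _ hy)
    have h2 := gcnt_ge (h := h) (hG x List.mem_cons_self)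
    simp only [List.map_cons, List.sum_cons, List.countP_cons] at h1 ⊢
    omega

lemma sum_gcnt_eq {H h : ℕ} (GB : List (Gad × Bool)) (hG : ∀ x ∈ GB, WF H x.1) :
    ((GB.map fun x => (x.1, x.2, !x.2)).map (gcnt h)).sum =
      ((GB.map Prod.fst).map (base h)).sum + 2 * GB.countP (charged h) := by
  induction GB with
  | nil => simp
  | cons x G ih =>
    have h1 := ih fun y hy => hG y (List.mem_cons_of_mem _ hy)
    have h2 := gcnt_eq (h := h) x.2 (hG x List.mem_cons_self)
    simp only [List.map_cons, List.sum_cons, List.countP_cons] at h1 ⊢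
    rw [h1, h2]
    ring

lemma base_even (h : ℕ) (G : List Gad) : Even (G.map (base h)).sum := by
  induction G with
  | nil => simp
  | cons g G ih =>
    rw [List.map_cons, List.sum_cons]
    refine Even.add ?_ ih
    unfold base
    split_ifs <;> decide

lemma base_le (h : ℕ) (G : List Gad) : (G.map (base h)).sum ≤ 4 * G.length := by
  induction G with
  | nil => simp
  | cons g G ih =>
    rw [List.map_cons, List.sum_cons, List.length_cons]
    have : base h g ≤ 4 := by unfold base; split_ifs <;> omega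
    omega

lemma base_top {H : ℕ} (G : List Gad) (hG : ∀ g ∈ G, WF H g) : (G.map (base H)).sum = 0 := by
  induction G with
  | nil => simp
  | cons g G ih =>
    rw [List.map_cons, List.sum_cons, ih fun y hy => hG y (List.mem_cons_of_mem _ hy)]
    obtain ⟨h1, h2, h3, h4, h5⟩ := hG g List.mem_cons_self
    unfold base
    rw [if_neg (by omega), if_neg (by omega), if_neg (by omega)]

lemma countP_charged_top {H : ℕ} (GB : List (Gad × Bool)) (hG : ∀ x ∈ GB, WF H x.1) :
    GB.countP (charged H) = 0 := by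
  rw [List.countP_eq_zero]
  intro x hx
  obtain ⟨h1, h2, h3, h4, h5⟩ := hG x hx
  unfold charged
  split_ifs <;> simp <;> omega

end Pool.Agent.MP_a4672b_lc
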