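import Pool.Agent.MP_a4672b_lc.Param
import Pool.Agent.MP_a4672b_lc.Defs
import Pool.Agent.MP_a6d740_lc.Bin

namespace Pool.Agent.MP_a4672b_lc

open Pool.Agent.MP_2e8011_lc Pool.Agent.MP_a6d740_lc

def toQ (z : ℕ × ℕ) : ℚ × ℚ := (z.1, z.2)

lemma toQ_inj : Function.Injective toQ := by
  intro z w h
  simp only [toQ, Prod.mk.injEq, Nat.cast_inj] at h
  exact Prod.ext h.1 h.2

lemma stabCount_eq_cnt (a b c : ℝ) (P : List (ℚ × ℚ)) : stabCount a b c P =
    cnt (fun x y : ℚ × ℚ => (a * x.1 + b * x.2 + c) * (a * y.1 + b * y.2 + c) < 0) P := by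
  unfold stabCount cnt edges
  congr

lemma stabCount_map (a b c : ℝ) (W : List (ℕ × ℕ)) :
    stabCount a b c (W.map toQ) = cross (Par.lineF a b c) W := by
  rw [stabCount_eq_cnt, cnt_map]
  simp [cross, Par.lineF, toQ]

lemma maxStab_le_iff (P : List (ℚ × ℚ)) (k : ℕ) :
    maxStab P ≤ k ↔ ∀ a b c : ℝ, (a ≠ 0 ∨ b ≠ 0) → stabCount a b c P ≤ k := by
  unfold maxStab
  rw [csSup_le_iff' ⟨P.length, by
    rintro _ ⟨a, b, c, -, rfl⟩
    rw [stabCount_eq_cnt]
    exact cnt_le_length _ _⟩]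
  constructor
  · intro h a b c hab
    exact h _ ⟨a, b, c, hab, rfl⟩
  · rintro h _ ⟨a, b, c, hab, rfl⟩
    exact h a b c hab

lemma pathStab_le_iff {l : List (ℚ × ℚ)} (hl : l.Nodup) (k : ℕ) :
    pathStab l.toFinset ≤ k ↔ ∃ P : List (ℚ × ℚ), P.Perm l ∧ maxStab P ≤ k := by
  unfold pathStab
  constructor
  · intro h
    obtain ⟨P, h1, h2, h3⟩ := Nat.sInf_mem (s := {m | ∃ P : List (ℚ × ℚ), P.Nodup ∧
      P.toFinset = l.toFinset ∧ maxStab P = m}) ⟨_, l, hl, rfl, rfl⟩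
    exact ⟨P, List.perm_of_nodup_nodup_toFinset_eq h1 hl h2, h3 ▸ h⟩
  · rintro ⟨P, h1, h2⟩
    exact le_trans (Nat.sInf_le ⟨P, h1.nodup_iff.2 hl, List.toFinset_eq_of_perm _ _ h1, rfl⟩) h2

lemma exists_of_perm_map {α β : Type*} {f : α → β} {l : List β} {Q : List α}
    (hp : l.Perm (Q.map f)) : ∃ L : List α, L.Perm Q ∧ L.map f = l := by
  obtain ⟨L, h1, h2⟩ := List.perm_comp_forall₂ (r := fun (x : β) (z : α) => x = f z) hp
    (by rw [List.forall₂_map_left_iff]; exact List.forall₂_same.2 fun _ _ => rfl)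
  refine ⟨L, h2, ?_⟩
  clear hp h2
  induction h1 with
  | nil => rfl
  | cons h _ ih => rw [List.map_cons, ih, h]

lemma pathStab_map_le_iff {l : List (ℕ × ℕ)} (hl : l.Nodup) (k : ℕ) :
    pathStab (l.map toQ).toFinset ≤ k ↔ ∃ W : List (ℕ × ℕ), W.Perm l ∧ Par.Low k W := by
  rw [pathStab_le_iff (hl.map toQ_inj)]
  constructor
  · rintro ⟨P, h1, h2⟩
    obtain ⟨W, h3, rfl⟩ := exists_of_perm_map h1
    refine ⟨W, h3, fun a b c hab => ?_⟩
    rw [← stabCount_map]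
    exact (maxStab_le_iff _ _).1 h2 a b c hab
  · rintro ⟨W, h1, h2⟩
    refine ⟨W.map toQ, h1.map _, (maxStab_le_iff _ _).2 fun a b c hab => ?_⟩
    rw [stabCount_map]
    exact h2 a b c hab

def intB (n : ℤ) : Bin × Bin := (⟨n.toNat⟩, ⟨(-n).toNat⟩)

def ratB (q : ℚ) : (Bin × Bin) × Bin := (intB q.num, ⟨q.den⟩)

lemma bitEncode_int (n : ℤ) : N487b59b3.bitEncode n = enc (intB n) :=
  bitEncode_prod bitEncode_bin bitEncode_bin (n.toNat, (-n).toNat)

lemma bitEncode_rat (q : ℚ) : N487b59b3.bitEncode q = enc (ratB q) :=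
  bitEncode_prod bitEncode_int bitEncode_bin (q.num, q.den)

lemma bitEncode_inst (l : List (ℚ × ℚ)) (k : ℤ) : N487b59b3.bitEncode (l, k) =
    enc (l.map fun p => (ratB p.1, ratB p.2), intB k) :=
  bitEncode_prod (bitEncode_list (bitEncode_prod bitEncode_rat bitEncode_rat)) bitEncode_int (l, k)

/-- the instance attached to a formula -/
def inst (φ : CNF) : List Bool :=
  enc ((ptsOf (gads φ) (lensOf φ)).map fun z =>
    ((((Bin.mk z.1, Bin.mk 0), Bin.mk 1), ((Bin.mk z.2, Bin.mk 0), Bin.mk 1))),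
    (Bin.mk (kOf (gads φ) (lensOf φ)), Bin.mk 0))

lemma pt_inst : PT inst := by
  have h1 := pt_ptsOf pt_gads pt_lensOf
  have h2 := pt_kOf pt_gads pt_lensOf
  refine PT.enc (PT.prodMk (PT.map (f := fun _ (z : ℕ × ℕ) =>
    ((((Bin.mk z.1, Bin.mk 0), Bin.mk 1), ((Bin.mk z.2, Bin.mk 0), Bin.mk 1)))) ?_ h1)
    ((pt_ofUnary h2).prodMk (PT.const _)))
  exact (((pt_ofUnary PT.id.snd.fst).prodMk (PT.const _)).prodMk (PT.const _)).prodMk
    (((pt_ofUnary PT.id.snd.snd).prodMk (PT.const _)).prodMk (PT.const _))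

lemma inst_eq (φ : CNF) : inst φ = N487b59b3.bitEncode ((ptsOf (gads φ) (lensOf φ)).map toQ,
    (kOf (gads φ) (lensOf φ) : ℤ)) := by
  rw [bitEncode_inst, List.map_map]
  unfold inst
  congr 2
  apply List.map_congr_left
  intro z _
  simp [ratB, intB, toQ]

lemma inst_iff (φ : CNF) : PathStabProblem (inst φ) = true ↔ Sat φ := by
  have hnd := nodup_ptsOf (wf_gads (φ := φ))
  unfold PathStabProblem
  simp only [decide_eq_true_eq]
  rw [inst_eq]
  constructor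
  · rintro ⟨l, k, h1, -, -, h2⟩
    obtain ⟨rfl, rfl⟩ := Prod.mk.inj (N487b59b3.bitEncode_injective h1)
    obtain ⟨W, h3, h4⟩ := (pathStab_map_le_iff hnd _).1 (by exact_mod_cast h2)
    exact sat_of_solvable (solvable_of_low wf_gads h3 h4)
  · intro h
    refine ⟨_, _, rfl, hnd.map toQ_inj, by rw [List.length_map]; exact two_le_length_ptsOf, ?_⟩
    exact_mod_cast (pathStab_map_le_iff hnd _).2 (low_of_solvable wf_gads (solvable_of_sat h))

end Pool.Agent.MP_a4672b_lc
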