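import Pool.Agent.MP_a4672b_lc.Logic

namespace Pool.Agent.MP_a4672b_lc

open Pool.Agent.MP_2e8011_lc

def nn (φ : CNF) : ℕ := sz φ + 1

def lit (φ : CNF) (o : ℕ) : ℕ × Bool := (φ.getD (o / nn φ) []).getD (o % nn φ) (0, false)

def lvl (φ : CNF) (o : ℕ) : ℕ :=
  nn φ + (2 * (lit φ o).1 + bif (lit φ o).2 then 1 else 0) * (nn φ * nn φ) + o

def occGad (φ : CNF) (o : ℕ) : Gad := (o / nn φ, o / nn φ + 1, lvl φ o, lvl φ o + 1)

def varGad (φ : CNF) (v : ℕ) : Gad :=
  (nn φ + 2 * v * (nn φ * nn φ), nn φ + (2 * v + 1) * (nn φ * nn φ),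
    nn φ + (2 * v + 1) * (nn φ * nn φ), nn φ + (2 * v + 2) * (nn φ * nn φ))

def occs (φ : CNF) : List ℕ :=
  (List.range (nn φ * nn φ)).filter fun o => decide (o % nn φ < (φ.getD (o / nn φ) []).length)

def gads (φ : CNF) : List Gad := (occs φ).map (occGad φ) ++ (List.range (nn φ)).map (varGad φ)

def lensOf (φ : CNF) : List ℕ :=
  (List.range (nn φ + 2 * nn φ * (nn φ * nn φ))).map fun h =>
    if h < φ.length then (φ.getD h []).length else 2

lemma pt_nn : PT nn := by unfold nn; fun_prop

lemma pt_gads : PT gads := by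
  have := pt_nn
  unfold gads occs occGad varGad lvl lit
  fun_prop

lemma pt_lensOf : PT lensOf := by
  have := pt_nn
  unfold lensOf
  fun_prop

variable {φ : CNF}

lemma nn_pos : 0 < nn φ := Nat.succ_pos _

lemma length_lt_nn : φ.length < nn φ := Nat.lt_succ_of_le (length_le_sz φ)

lemma clause_length_lt {c : List (ℕ × Bool)} (hc : c ∈ φ) : c.length < nn φ :=
  Nat.lt_succ_of_le ((length_le_sz c).trans (sz_le_of_mem hc))

lemma var_lt {c : List (ℕ × Bool)} (hc : c ∈ φ) {l : ℕ × Bool} (hl : l ∈ c) : l.1 < nn φ := by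
  have h1 := sz_le_of_mem hc
  have h2 := sz_le_of_mem hl
  obtain ⟨v, s⟩ := l
  simp only [sz_prod, sz_nat, sz_bool] at h2
  unfold nn
  omega

lemma mem_occs {o : ℕ} : o ∈ occs φ ↔ o < nn φ * nn φ ∧ o % nn φ < (φ.getD (o / nn φ) []).length := by
  simp [occs]

lemma occ_clause {o : ℕ} (ho : o ∈ occs φ) : o / nn φ < φ.length := by
  by_contra h
  have := (mem_occs.1 ho).2
  rw [List.getD_eq_default _ _ (not_lt.1 h)] at this
  simp at this

lemma getD_mem {α : Type*} {l : List α} {i : ℕ} (hi : i < l.length) (d : α) : l.getD i d ∈ l := by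
  rw [List.getD_eq_getElem _ _ hi]; exact List.getElem_mem _

lemma lit_mem {o : ℕ} (ho : o ∈ occs φ) : lit φ o ∈ φ.getD (o / nn φ) [] :=
  getD_mem (mem_occs.1 ho).2 _

lemma lit_lt {o : ℕ} (ho : o ∈ occs φ) : (lit φ o).1 < nn φ :=
  var_lt (getD_mem (occ_clause ho) _) (lit_mem ho)

lemma length_lensOf : (lensOf φ).length = nn φ + 2 * nn φ * (nn φ * nn φ) := by simp [lensOf]

lemma lensOf_getD {h : ℕ} (hh : h < (lensOf φ).length) :
    (lensOf φ).getD h 1 = if h < φ.length then (φ.getD h []).length else 2 := by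
  rw [List.getD_eq_getElem _ _ hh]
  simp [lensOf]

/-- block index of the literal of an occurrence -/
def blk (φ : CNF) (o : ℕ) : ℕ := 2 * (lit φ o).1 + bif (lit φ o).2 then 1 else 0

lemma lvl_eq (o : ℕ) : lvl φ o = nn φ + blk φ o * (nn φ * nn φ) + o := rfl

lemma blk_lt {o : ℕ} (ho : o ∈ occs φ) : blk φ o + 1 ≤ 2 * nn φ := by
  have := lit_lt ho
  unfold blk
  cases (lit φ o).2 <;> simp <;> omega

lemma wf_gads : ∀ g ∈ gads φ, WF (lensOf φ).length g := by
  intro g hg
  rw [length_lensOf]
  have hW : 0 < nn φ * nn φ := Nat.mul_pos nn_pos nn_pos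
  rcases List.mem_append.1 hg with hg | hg
  · obtain ⟨o, ho, rfl⟩ := List.mem_map.1 hg
    have h1 := occ_clause ho
    have h2 := length_lt_nn (φ := φ)
    have h3 := Nat.mul_le_mul_right (nn φ * nn φ) (blk_lt ho)
    have h4 := (mem_occs.1 ho).1
    rw [add_mul] at h3
    simp only [WF, occGad, lvl_eq]
    omega
  · obtain ⟨v, hv, rfl⟩ := List.mem_map.1 hg
    rw [List.mem_range] at hv
    have h3 := Nat.mul_le_mul_right (nn φ * nn φ) (show 2 * v + 2 ≤ 2 * nn φ by omega)
    simp only [WF, varGad, add_mul] at h3 ⊢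
    omega

lemma card_le_countP {α ι : Type*} {p : α → Bool} {l : List α} (s : Finset ι) (g : ι → α)
    (hg : ∀ i ∈ s, g i ∈ l ∧ p (g i)) (hinj : Set.InjOn g s) : s.card ≤ l.countP p := by
  classical
  rw [List.countP_eq_length_filter]
  refine le_trans ?_ (List.toFinset_card_le _)
  apply Finset.card_le_card_of_injOn g _ hinj
  intro i hi
  simp only [List.coe_toFinset, List.mem_filter, Set.mem_ofPred_eq]
  exact hg i hi

lemma countP_le_card {α ι : Type*} {p : α → Bool} {l : List α} (hl : l.Nodup) (s : Finset ι)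
    (g : α → ι) (hg : ∀ x ∈ l, p x → g x ∈ s)
    (hinj : ∀ x ∈ l, ∀ y ∈ l, p x → p y → g x = g y → x = y) : l.countP p ≤ s.card := by
  classical
  rw [List.countP_eq_length_filter, ← List.toFinset_card_of_nodup (hl.filter _)]
  apply Finset.card_le_card_of_injOn g
  · intro x hx
    simp only [List.coe_toFinset, List.mem_filter, Set.mem_ofPred_eq] at hx
    exact hg x hx.1 hx.2
  · intro x hx y hy
    simp only [List.coe_toFinset, List.mem_filter, Set.mem_ofPred_eq] at hx hy
    exact hinj x hx.1 y hy.1 hx.2 hy.2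

lemma block_unique {W a b x y : ℕ} (hx : x < W) (hy : y < W) (h : a * W + x = b * W + y) :
    a = b ∧ x = y := by
  have h1 : (a * W + x) / W = a := by
    rw [add_comm, Nat.add_mul_div_right _ _ (by omega), Nat.div_eq_of_lt hx, zero_add]
  have h2 : (b * W + y) / W = b := by
    rw [add_comm, Nat.add_mul_div_right _ _ (by omega), Nat.div_eq_of_lt hy, zero_add]
  have h3 : a = b := by rw [← h1, h, h2]
  subst h3
  omega

lemma charged_var {v h : ℕ} {b : Bool} : charged h (varGad φ v, b) = true ↔
    ∃ x < nn φ * nn φ, h = nn φ + (2 * v + bif b then 1 else 0) * (nn φ * nn φ) + x := by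
  cases b
  · simp only [charged, varGad, Bool.false_eq_true, if_false, decide_eq_true_eq, cond_false,
      add_zero, add_mul, one_mul]
    constructor
    · intro h1
      exact ⟨h - (nn φ + 2 * v * (nn φ * nn φ)), by omega, by omega⟩
    · rintro ⟨x, hx, rfl⟩
      omega
  · simp only [charged, varGad, if_true, decide_eq_true_eq, cond_true, add_mul, one_mul]
    constructor
    · intro h1
      exact ⟨h - (nn φ + (2 * v * (nn φ * nn φ) + nn φ * nn φ)), by omega, by omega⟩
    · rintro ⟨x, hx, rfl⟩
      omega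

lemma charged_occ {o h : ℕ} {b : Bool} : charged h (occGad φ o, b) = true ↔
    h = if b then lvl φ o else o / nn φ := by
  cases b <;> simp only [charged, occGad, Bool.false_eq_true, if_false, if_true,
    decide_eq_true_eq] <;> omega

theorem solvable_of_sat (h : Sat φ) : Solvable (gads φ) (lensOf φ) := by
  classical
  obtain ⟨a, ha⟩ := h
  refine ⟨(occs φ).map (fun o => (occGad φ o, decide (a (lit φ o).1 = (lit φ o).2))) ++
    (List.range (nn φ)).map (fun v => (varGad φ v, !a v)), by simp [gads, Function.comp_def], ?_⟩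
  intro h hh
  rw [lensOf_getD hh, List.countP_append, List.countP_map, List.countP_map]
  have hnd : (occs φ).Nodup := List.nodup_range.filter _
  have hn := length_lt_nn (φ := φ)
  by_cases h1 : h < nn φ
  · have h2 : (List.range (nn φ)).countP (charged h ∘ fun v => (varGad φ v, !a v)) = 0 := by
      rw [List.countP_eq_zero]
      intro v _ hv
      obtain ⟨x, -, hx⟩ := charged_var.1 hv
      omega
    have h3 : ∀ o ∈ occs φ, (charged h ∘ fun o =>
        (occGad φ o, decide (a (lit φ o).1 = (lit φ o).2))) o = true →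
        h = o / nn φ ∧ a (lit φ o).1 ≠ (lit φ o).2 := by
      intro o _ ho
      have h4 := charged_occ.1 ho
      split_ifs at h4 with h5
      · rw [lvl_eq] at h4; omega
      · exact ⟨h4, by simpa using h5⟩
    rw [h2, add_zero]
    split_ifs with h4
    · obtain ⟨l, hl, hal⟩ := ha _ (getD_mem h4 [])
      obtain ⟨i, hi, rfl⟩ := List.getElem_of_mem hl
      have h5 := countP_le_card hnd ((Finset.range (φ.getD h []).length).erase i) (· % nn φ)
        (p := charged h ∘ fun o => (occGad φ o, decide (a (lit φ o).1 = (lit φ o).2))) (by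
          intro o ho hc
          obtain ⟨rfl, h6⟩ := h3 o ho hc
          rw [Finset.mem_erase, Finset.mem_range]
          refine ⟨fun h7 => h6 ?_, (mem_occs.1 ho).2⟩
          have : lit φ o = (φ.getD (o / nn φ) [])[i] := by
            unfold lit
            rw [h7, List.getD_eq_getElem _ _ hi]
          rw [this]; exact hal) (by
          intro x hx y hy hcx hcy hxy
          have h6 := (h3 x hx hcx).1
          have h7 := (h3 y hy hcy).1
          rw [← Nat.div_add_mod x (nn φ), ← Nat.div_add_mod y (nn φ), ← h6, ← h7]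
          rw [hxy])
      rw [Finset.card_erase_of_mem (Finset.mem_range.2 hi), Finset.card_range] at h5
      omega
    · rw [List.countP_eq_zero.2]
      · omega
      · intro o ho hc
        have := (h3 o ho hc).1
        have := occ_clause ho
        omega
  · rw [if_neg (by omega)]
    have h3 : ∀ o ∈ occs φ, (charged h ∘ fun o =>
        (occGad φ o, decide (a (lit φ o).1 = (lit φ o).2))) o = true →
        h = lvl φ o ∧ a (lit φ o).1 = (lit φ o).2 := by
      intro o ho hc
      have h4 := charged_occ.1 hc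
      split_ifs at h4 with h5
      · exact ⟨h4, by simpa using h5⟩
      · have := occ_clause ho
        omega
    have h4 := countP_le_card hnd {0} (fun _ => 0)
      (p := charged h ∘ fun o => (occGad φ o, decide (a (lit φ o).1 = (lit φ o).2))) (by simp) (by
        intro x hx y hy hcx hcy _
        have h6 := (h3 x hx hcx).1
        have h7 := (h3 y hy hcy).1
        rw [lvl_eq] at h6 h7
        exact (block_unique (mem_occs.1 hx).1 (mem_occs.1 hy).1
          (a := blk φ x) (b := blk φ y) (by omega)).2)
    have h5 := countP_le_card (List.nodup_range (n := nn φ)) {0} (fun _ => 0)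
      (p := charged h ∘ fun v => (varGad φ v, !a v)) (by simp) (by
        intro x _ y _ hcx hcy _
        obtain ⟨s, hs, h6⟩ := charged_var.1 hcx
        obtain ⟨t, ht, h7⟩ := charged_var.1 hcy
        have := (block_unique hs ht (a := 2 * x + bif !a x then 1 else 0)
          (b := 2 * y + bif !a y then 1 else 0) (by omega)).1
        revert this
        cases a x <;> cases a y <;> simp <;> omega)
    rw [Finset.card_singleton] at h4 h5
    by_contra hc
    obtain ⟨o, ho, hco⟩ := List.countP_pos_iff.1 (show 0 < (occs φ).countP (charged h ∘ fun o =>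
      (occGad φ o, decide (a (lit φ o).1 = (lit φ o).2))) by omega)
    obtain ⟨v, -, hcv⟩ := List.countP_pos_iff.1 (show 0 < (List.range (nn φ)).countP
      (charged h ∘ fun v => (varGad φ v, !a v)) by omega)
    obtain ⟨h6, h7⟩ := h3 o ho hco
    obtain ⟨s, hs, h8⟩ := charged_var.1 hcv
    rw [lvl_eq] at h6
    have h9 := (block_unique hs (mem_occs.1 ho).1 (a := 2 * v + bif !a v then 1 else 0)
      (b := blk φ o) (by omega)).1
    unfold blk at h9
    rw [← h7] at h9
    have h10 : v = (lit φ o).1 := by
      revert h9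
      cases a v <;> cases a (lit φ o).1 <;> simp <;> omega
    rw [← h10] at h9
    revert h9
    cases a v <;> simp

theorem sat_of_solvable (h : Solvable (gads φ) (lensOf φ)) : Sat φ := by
  classical
  obtain ⟨GB, hGB, hc⟩ := h
  have h1 : ∀ g, ∃ b, g ∈ gads φ → (g, b) ∈ GB := by
    intro g
    by_cases hg : g ∈ gads φ
    · rw [← hGB] at hg
      obtain ⟨x, hx, rfl⟩ := List.mem_map.1 hg
      exact ⟨x.2, fun _ => hx⟩
    · exact ⟨true, fun h => absurd h hg⟩
  choose ch hch using h1
  have hocc : ∀ o ∈ occs φ, occGad φ o ∈ gads φ := fun o ho =>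
    List.mem_append_left _ (List.mem_map_of_mem ho)
  have hvar : ∀ v < nn φ, varGad φ v ∈ gads φ := fun v hv =>
    List.mem_append_right _ (List.mem_map_of_mem (List.mem_range.2 hv))
  have hn := length_lt_nn (φ := φ)
  have hn0 := nn_pos (φ := φ)
  refine ⟨fun v => !ch (varGad φ v), fun c hcφ => ?_⟩
  obtain ⟨j, hj, rfl⟩ := List.getElem_of_mem hcφ
  have hlen := clause_length_lt hcφ
  have hj' : j < (lensOf φ).length := by rw [length_lensOf]; omega
  have hdiv : ∀ i < φ[j].length, (j * nn φ + i) / nn φ = j ∧ (j * nn φ + i) % nn φ = i := by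
    intro i hi
    constructor
    · rw [add_comm, Nat.add_mul_div_right _ _ hn0, Nat.div_eq_of_lt (by omega), zero_add]
    · rw [add_comm, Nat.add_mul_mod_self_right, Nat.mod_eq_of_lt (by omega)]
  have hmem : ∀ i < φ[j].length, j * nn φ + i ∈ occs φ := by
    intro i hi
    rw [mem_occs, (hdiv i hi).1, (hdiv i hi).2, List.getD_eq_getElem _ _ hj]
    refine ⟨?_, hi⟩
    have := Nat.mul_le_mul_right (nn φ) (show j + 1 ≤ nn φ by omega)
    rw [add_mul] at this
    omega
  obtain ⟨i, hi, hchosen⟩ : ∃ i < φ[j].length, ch (occGad φ (j * nn φ + i)) = true := by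
    by_contra hno
    push Not at hno
    have h2 := hc j hj'
    rw [lensOf_getD hj', if_pos hj, List.getD_eq_getElem _ _ hj] at h2
    have h3 := card_le_countP (p := charged j) (l := GB) (Finset.range φ[j].length)
      (fun i => (occGad φ (j * nn φ + i), false)) (by
        intro i hi
        rw [Finset.mem_range] at hi
        have h4 := hch _ (hocc _ (hmem i hi))
        rw [Bool.eq_false_iff.2 (hno i hi)] at h4
        refine ⟨h4, charged_occ.2 ?_⟩
        simp [(hdiv i hi).1]) (by
        intro x hx y hy hxy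
        simp only [Finset.coe_range, Set.mem_Iio] at hx hy
        simp only [occGad, Prod.mk.injEq, lvl_eq] at hxy
        have := (block_unique (mem_occs.1 (hmem x hx)).1 (mem_occs.1 (hmem y hy)).1
          (a := blk φ (j * nn φ + x)) (b := blk φ (j * nn φ + y)) (by omega)).2
        omega)
    rw [Finset.card_range] at h3
    omega
  set o := j * nn φ + i with ho
  have hoc : o ∈ occs φ := hmem i hi
  have hlit : lit φ o = φ[j][i] := by
    unfold lit
    rw [(hdiv i hi).1, (hdiv i hi).2, List.getD_eq_getElem _ _ hj, List.getD_eq_getElem _ _ hi]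
  refine ⟨lit φ o, by rw [hlit]; exact List.getElem_mem _, ?_⟩
  by_contra hne
  have h2 : ch (varGad φ (lit φ o).1) = (lit φ o).2 := by
    revert hne
    beta_reduce
    cases ch (varGad φ (lit φ o).1) <;> cases (lit φ o).2 <;> simp
  have hwf := wf_gads _ (hocc o hoc)
  have hl : lvl φ o < (lensOf φ).length := hwf.2.2.2.1
  have h3 := hc _ hl
  rw [lensOf_getD hl, if_neg (by rw [lvl_eq]; omega)] at h3
  have h4 := card_le_countP (p := charged (lvl φ o)) (l := GB) (Finset.univ : Finset Bool)
    (fun b => bif b then (occGad φ o, true) else (varGad φ (lit φ o).1, (lit φ o).2)) (by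
      intro b _
      cases b
      · refine ⟨?_, charged_var.2 ⟨o, (mem_occs.1 hoc).1, rfl⟩⟩
        have := hch _ (hvar _ (lit_lt hoc))
        rwa [h2] at this
      · refine ⟨?_, charged_occ.2 (by simp)⟩
        have := hch _ (hocc _ hoc)
        rwa [hchosen] at this) (by
      have h5 : occGad φ o ≠ varGad φ (lit φ o).1 := by
        intro h
        have := congrArg Prod.fst h
        simp only [occGad, varGad] at this
        have := occ_clause hoc
        omega
      intro x _ y _ hxy
      cases x <;> cases y <;> simp_all)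
  simp at h4
  omega

end Pool.Agent.MP_a4672b_lc
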