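import Pool.Agent.MP_a4672b_lc.Sound
import Pool.Agent.MP_a4672b_lc.SatRed

namespace Pool.Agent.MP_a4672b_lc

open Pool.Agent.MP_2e8011_lc

def kOf (G : List Gad) (lens : List ℕ) : ℕ :=
  2 * (7 * G.length + 7 * (5 * G.length + 1 + lens.length + 1) + lens.sum + 1) + 1

def rhoOf (G : List Gad) (lens : List ℕ) (b : ℕ) : ℕ :=
  if b < 5 * G.length + 1 then kOf G lens - 2 else
    kOf G lens + 2 - ((G.map (base (5 * G.length + 1 + lens.length + 1 - 1 - b))).sum +
      2 * lens.getD (5 * G.length + 1 + lens.length + 1 - 1 - b) 1)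

def mkPar (G : List Gad) (lens : List ℕ) : Par where
  nV := 5 * G.length + 1
  B := 5 * G.length + 1 + lens.length + 1
  K := kOf G lens + 2
  N := (kOf G lens + 2 + 1) * (4 * kOf G lens) + 2
  k := kOf G lens
  rho := rhoOf G lens

def logicPts (G : List Gad) : List (ℕ × ℕ) := lpath 0 (G.map fun g => (g, true, true))

def ptsOf (G : List Gad) (lens : List ℕ) : List (ℕ × ℕ) :=
  (logicPts G).map (mkPar G lens).emb ++ (mkPar G lens).tailPts

variable {G : List Gad} {lens : List ℕ}

lemma getD_le_sum (l : List ℕ) (h : ℕ) : l.getD h 1 ≤ l.sum + 1 := by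
  by_cases hh : h < l.length
  · exact (List.single_le_sum (by simp) _ (getD_mem hh 1)).trans (by omega)
  · rw [List.getD_eq_default _ _ (by omega)]; omega

lemma cap_le (h : ℕ) : (G.map (base h)).sum + 2 * lens.getD h 1 ≤ kOf G lens := by
  have := base_le h G
  have := getD_le_sum lens h
  unfold kOf
  omega

lemma good_mkPar : (mkPar G lens).Good where
  nV_pos := Nat.succ_pos _
  nV_lt := by simp only [mkPar]; omega
  N_pos := Nat.succ_pos _
  rho_le b := by simp only [mkPar, rhoOf]; split_ifs <;> omega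
  rho_odd b _ := by
    simp only [mkPar, rhoOf]
    split_ifs
    · unfold kOf; omega
    · have h1 := cap_le (G := G) (lens := lens) (5 * G.length + 1 + lens.length + 1 - 1 - b)
      obtain ⟨m, hm⟩ := base_even (5 * G.length + 1 + lens.length + 1 - 1 - b) G
      have : kOf G lens % 2 = 1 := by unfold kOf; omega
      omega
  N_big := by simp only [mkPar]; omega

lemma cut_not {α : Type*} (A : α → Prop) : Cut (fun x => ¬ A x) = Cut A := by
  ext x y; unfold Cut; tauto

lemma left_of_lt {i : ℕ} (hi : i < 5 * G.length + 1) :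
    (mkPar G lens).Left i = fun z => z.1 ≤ i := by
  ext z; exact Iff.of_eq (if_pos hi)

lemma left_of_ge {i : ℕ} (hi : ¬ i < 5 * G.length + 1) :
    (mkPar G lens).Left i = fun z => ¬ z.2 ≤ 5 * G.length + 1 + lens.length + 1 - 1 - i := by
  ext z; exact Iff.of_eq (if_neg hi)

lemma mem_logicPts (hG : ∀ g ∈ G, WF lens.length g) {z : ℕ × ℕ} (hz : z ∈ logicPts G) :
    z.1 + z.2 < (mkPar G lens).B ∧ z.1 < (mkPar G lens).nV ∧
      z.2 ≤ (mkPar G lens).B - 1 - (mkPar G lens).nV := by
  have := mem_lpath (wf_map hG) hz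
  rw [List.length_map] at this
  simp only [mkPar]
  omega

lemma nodup_ptsOf (hG : ∀ g ∈ G, WF lens.length g) : (ptsOf G lens).Nodup :=
  Par.nodup_all good_mkPar (nodup_lpath (wf_map hG)) fun _ hz => (mem_logicPts hG hz).1

lemma two_le_length_ptsOf : 2 ≤ (ptsOf G lens).length := by
  have h1 : (mkPar G lens).pt 0 (mkPar G lens).K 0 ∈ (mkPar G lens).tailPts :=
    (Par.mem_tailPts good_mkPar).2 ⟨0, by simp only [mkPar]; omega, _,
      Or.inr ⟨rfl, good_mkPar.nV_pos⟩, 0, good_mkPar.N_pos, rfl⟩
  have h2 := List.length_pos_of_mem h1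
  unfold ptsOf logicPts
  rw [List.length_append, List.length_map, length_lpath]
  omega

theorem low_of_solvable (hG : ∀ g ∈ G, WF lens.length g) (h : Solvable G lens) :
    ∃ W : List (ℕ × ℕ), W.Perm (ptsOf G lens) ∧ Par.Low (kOf G lens) W := by
  obtain ⟨GB, hGB, hc⟩ := h
  set G' := GB.map fun x => (x.1, x.2, !x.2) with hG'
  have h1 : G'.map Prod.fst = G := by rw [← hGB, hG', List.map_map]; rfl
  have h2 : (lpath 0 G').Perm (logicPts G) := by
    have := lpath_perm 0 G'
    rwa [h1] at this
  have hGB' : ∀ x ∈ GB, WF lens.length x.1 := fun x hx => hG _ (hGB ▸ List.mem_map_of_mem hx)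
  have h3 : ∀ x ∈ G', WF lens.length x.1 := fun x hx => hG _ (h1 ▸ List.mem_map_of_mem hx)
  have h4 : G'.length = G.length := by simpa using congrArg List.length h1
  refine ⟨(lpath 0 G').map (mkPar G lens).emb ++ (mkPar G lens).tailPts,
    (h2.map _).append_right _, fun a b c _ => ?_⟩
  refine Par.complete good_mkPar _ (fun z hz => (mem_logicPts hG (h2.mem_iff.1 hz)).1) ?_ ?_ a b c
  · intro i hi
    by_cases hi' : i < 5 * G.length + 1
    · rw [left_of_lt hi']
      have h5 := cnt_cut_le_one_of_sorted Prod.fst i (lpath 0 G' ++ [((mkPar G lens).nV, 0)]) (by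
        rw [List.pairwise_append]
        refine ⟨sorted_lpath h3, by simp, fun x hx y hy => ?_⟩
        rw [List.mem_singleton] at hy
        subst hy
        exact (mem_logicPts hG (h2.mem_iff.1 hx)).2.1.le)
      have h6 := ind_le (i < (mkPar G lens).nV)
      have h7 : (mkPar G lens).rho i = kOf G lens - 2 := if_pos hi'
      have h8 : (mkPar G lens).k = kOf G lens := rfl
      have h9 : 2 ≤ kOf G lens := by unfold kOf; omega
      omega
    · rw [left_of_ge hi', cut_not, ind_neg (p := i < (mkPar G lens).nV) hi']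
      have h7 : (mkPar G lens).rho i = _ := if_neg hi'
      have h8 : (mkPar G lens).k = kOf G lens := rfl
      rw [h7, h8]
      set h := 5 * G.length + 1 + lens.length + 1 - 1 - i with hh
      have h9 : GB.countP (charged h) < lens.getD h 1 := by
        by_cases h10 : h < lens.length
        · exact hc h h10
        · have : h = lens.length := by omega
          rw [this, countP_charged_top GB hGB', List.getD_eq_default _ _ le_rfl]
          omega
      have h10 := cnt_lpath h 0 G'
      rw [hG', sum_gcnt_eq GB hGB', hGB, ← hG'] at h10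
      obtain ⟨t, ht⟩ := lpath_eq_concat 0 G'
      rw [ht] at h10 ⊢
      rw [List.append_assoc, List.singleton_append, cnt_append_cons, h10, cnt_cons_cons,
        ind_neg (by simp [Cut]), cnt_single]
      have := cap_le (G := G) (lens := lens) h
      omega
  · rw [length_lpath, h4]
    simp only [mkPar, kOf]
    omega

theorem solvable_of_low (hG : ∀ g ∈ G, WF lens.length g) {W : List (ℕ × ℕ)}
    (hW : W.Perm (ptsOf G lens)) (h : Par.Low (kOf G lens) W) : Solvable G lens := by
  have h9 : 2 ≤ kOf G lens := by unfold kOf; omega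
  obtain ⟨L, hL, h1, h2⟩ := Par.sound (P := mkPar G lens) good_mkPar
    (fun z hz => mem_logicPts hG hz) (by
      simp only [mkPar, rhoOf]
      rw [if_neg (by omega), show 5 * G.length + 1 + lens.length + 1 - 1 - (5 * G.length + 1) =
        lens.length by omega, base_top G hG, List.getD_eq_default _ _ le_rfl]
      omega) (by
      simp only [mkPar, rhoOf]
      rw [if_pos (by omega)]
      omega) hW h
  have h3 := sorted_of_cut_le_one Prod.fst L ((mkPar G lens).nV, 0)
    (fun z hz => (mem_logicPts hG (hL.mem_iff.1 hz)).2.1) (by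
      rintro _ ⟨z, hz, rfl⟩
      have h4 := (mem_logicPts hG (hL.mem_iff.1 hz)).2.1
      have h5 := h1 _ h4
      rw [left_of_lt h4] at h5
      have h7 : (mkPar G lens).rho z.1 = kOf G lens - 2 := if_pos h4
      have h8 : (mkPar G lens).k = kOf G lens := rfl
      omega)
  obtain ⟨G', hG', rfl⟩ := exists_lpath_of_sorted G hG 0 L h3 hL
  refine ⟨G'.map fun x => (x.1, x.2.1 && !x.2.2), by rw [← hG', List.map_map]; rfl, fun h hh => ?_⟩
  have h4 := h2 (5 * G.length + 1 + lens.length - h) (by simp only [mkPar]; omega)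
  have h5 : ¬ 5 * G.length + 1 + lens.length - h < 5 * G.length + 1 := by omega
  have h7 : (mkPar G lens).rho (5 * G.length + 1 + lens.length - h) = _ := if_neg h5
  have h8 : (mkPar G lens).k = kOf G lens := rfl
  rw [left_of_ge h5, cut_not, h7, h8, show 5 * G.length + 1 + lens.length + 1 - 1 -
    (5 * G.length + 1 + lens.length - h) = h by omega, cnt_lpath] at h4
  have h6 := sum_gcnt_ge (h := h) G' (fun x hx => hG _ (hG' ▸ List.mem_map_of_mem hx))
  rw [hG'] at h6
  have := cap_le (G := G) (lens := lens) h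
  omega

section PT

variable {α : Type} [Enc α]

@[fun_prop] lemma pt_sum {l : α → List ℕ} (hl : PT l) : PT fun a => (l a).sum := by
  have : PT fun a => ((l a).flatMap fun n => List.range n).length := by fun_prop
  exact this.congr fun a => by simp [List.length_flatMap]

lemma lpath_eq_flatMap (c : ℕ) (G : List Gad) : lpath c (G.map fun g => (g, true, true)) =
    ((List.range G.length).flatMap fun t => gpath (c + 5 * t) (G.getD t default) true true) ++
      [(c + 5 * G.length, 0)] := by
  induction G generalizing c with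
  | nil => rfl
  | cons g G ih =>
    rw [List.map_cons, lpath, ih, List.length_cons, List.range_succ_eq_map, List.flatMap_cons,
      List.flatMap_map, List.append_assoc]
    simp only [List.getD_cons_succ, List.getD_cons_zero, Nat.succ_eq_add_one, mul_add, add_assoc,
      add_comm 5, mul_zero, add_zero, mul_one]

lemma pt_kOf {G : α → List Gad} {lens : α → List ℕ} (hG : PT G) (hl : PT lens) :
    PT fun a => kOf (G a) (lens a) := by
  unfold kOf; fun_prop

lemma pt_base {h : α → ℕ} {g : α → Gad} (hh : PT h) (hg : PT g) : PT fun a => base (h a) (g a) := by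
  unfold base
  fun_prop

lemma pt_rhoOf {G : α → List Gad} {lens : α → List ℕ} {b : α → ℕ} (hG : PT G) (hl : PT lens)
    (hb : PT b) : PT fun a => rhoOf (G a) (lens a) (b a) := by
  have hk := pt_kOf hG hl
  have hh : PT fun a => 5 * (G a).length + 1 + (lens a).length + 1 - 1 - b a := by fun_prop
  unfold rhoOf
  refine PT.ite (by fun_prop) (hk.sub (PT.const _)) ((hk.add (PT.const _)).sub (PT.add
    (pt_sum (PT.map (pt_base (hh.comp PT.id.fst) PT.id.snd) hG))
    ((PT.const _).mul (PT.getD hl hh (PT.const _)))))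

lemma pt_pts {P : α → Par} {Q : α → List (ℕ × ℕ)} (hQ : PT Q) (hN : PT fun a => (P a).N)
    (hB : PT fun a => (P a).B) (hK : PT fun a => (P a).K) (hV : PT fun a => (P a).nV)
    (hrho : PT fun p : α × ℕ => (P p.1).rho p.2) :
    PT fun a => (Q a).map (P a).emb ++ (P a).tailPts := by
  have hS : PT fun a => (P a).S := hN.mul ((hB.add hK).add (PT.const 1))
  have h3 : PT fun p : α × ℕ × ℕ => (P p.1).rowLR p.2.1 p.2.2 := by
    have e1 : PT fun p : (α × ℕ × ℕ) × ℕ => (P p.1.1).S := hS.comp PT.id.fst.fst
    have e2 : PT fun p : (α × ℕ × ℕ) × ℕ => (P p.1.1).nV := hV.comp PT.id.fst.fst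
    have e3 : PT fun p : (α × ℕ × ℕ) × ℕ => (P p.1.1).B := hB.comp PT.id.fst.fst
    have e4 : PT fun p : (α × ℕ × ℕ) × ℕ => p.1.2.1 := PT.id.fst.snd.fst
    have e5 : PT fun p : (α × ℕ × ℕ) × ℕ => p.1.2.2 := PT.id.fst.snd.snd
    exact PT.map (PT.prodMk (((e1.mul (((PT.const 2).mul e4).add (PT.const 1))).add
      (PT.ite (e4.lt e2) (PT.const 0) (((PT.const 2).mul e1).mul e5))).add PT.id.snd)
      (((PT.const 2).mul e1).mul (e3.add e5))) (PT.range (hN.comp PT.id.fst))
  have h4 : PT fun p : α × ℕ => (P p.1).snake p.2 := by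
    have e1 : PT fun q : (α × ℕ) × ℕ => (P q.1.1).rowLR q.1.2 q.2 :=
      h3.comp (f := fun q : (α × ℕ) × ℕ => (q.1.1, q.1.2, q.2)) (by fun_prop)
    exact PT.flatMap (PT.ite (by fun_prop) e1.reverse e1) hrho.range
  refine PT.append (PT.map ?_ hQ) (PT.append (PT.flatMap h4 hB.range.reverse)
    (PT.flatMap ?_ hV.range))
  · have e1 : PT fun p : α × ℕ × ℕ => (P p.1).S := hS.comp PT.id.fst
    exact PT.prodMk (((PT.const 2).mul e1).mul PT.id.snd.fst)
      (((PT.const 2).mul e1).mul (PT.id.snd.fst.add PT.id.snd.snd))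
  · exact h3.comp (f := fun q : α × ℕ => (q.1, q.2, (P q.1).K))
      (PT.id.fst.prodMk (PT.id.snd.prodMk (hK.comp PT.id.fst)))

lemma pt_ptsOf {G : α → List Gad} {lens : α → List ℕ} (hG : PT G) (hl : PT lens) :
    PT fun a => ptsOf (G a) (lens a) := by
  have hk := pt_kOf hG hl
  have h1 : PT fun a => logicPts (G a) := by
    unfold logicPts
    simp only [lpath_eq_flatMap, gpath, if_true]
    fun_prop
  have hV : PT fun a => 5 * (G a).length + 1 := by fun_prop
  exact pt_pts (P := fun a => mkPar (G a) (lens a)) h1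
    ((((hk.add (PT.const 2)).add (PT.const 1)).mul ((PT.const 4).mul hk)).add (PT.const 2))
    ((hV.add hl.length).add (PT.const 1)) (hk.add (PT.const 2)) hV
    (pt_rhoOf (hG.comp PT.id.fst) (hl.comp PT.id.fst) PT.id.snd)

end PT

end Pool.Agent.MP_a4672b_lc
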