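import Pool.Agent.MP_a4672b_lc.Geom

namespace Pool.Agent.MP_a4672b_lc

namespace Par

variable {P : Par}

lemma cnt_cut_int_le {W : List (ℕ × ℕ)} (g : ℕ × ℕ → ℤ) (j : ℤ) (f : ℕ × ℕ → ℝ)
    (hf : ∀ z, f z = g z - j - 1 / 2) : cnt (Cut fun z => g z ≤ j) W ≤ cross f W := by
  refine cnt_mono fun e _ h => ?_
  rw [hf, hf]
  rcases h with ⟨h1, h2⟩ | ⟨h1, h2⟩
  · have h3 : (g e.1 : ℝ) ≤ j := by exact_mod_cast h1
    have h4 : (j : ℝ) + 1 ≤ g e.2 := by exact_mod_cast (show j + 1 ≤ g e.2 by omega)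
    exact mul_neg_of_neg_of_pos (by linarith) (by linarith)
  · have h3 : (g e.2 : ℝ) ≤ j := by exact_mod_cast h2
    have h4 : (j : ℝ) + 1 ≤ g e.1 := by exact_mod_cast (show j + 1 ≤ g e.1 by omega)
    exact mul_neg_of_pos_of_neg (by linarith) (by linarith)

/-- every line stabs at most `k` edges -/
def Low (k : ℕ) (W : List (ℕ × ℕ)) : Prop :=
  ∀ a b c : ℝ, (a ≠ 0 ∨ b ≠ 0) → cross (lineF a b c) W ≤ k

lemma Low.reverse {k : ℕ} {W : List (ℕ × ℕ)} (h : Low k W) : Low k W.reverse := by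
  intro a b c hab
  have := h a b c hab
  unfold cross at this ⊢
  rw [cnt_reverse]
  simpa only [mul_comm] using this

lemma Low.gz_le {k : ℕ} {W : List (ℕ × ℕ)} (h : Low k W) (b : ℕ) (j : ℤ) :
    cnt (Cut fun z => P.gz b z ≤ j) W ≤ k := by
  refine (cnt_cut_int_le _ j (lineF 1 (-(if b < P.nV then 0 else 1))
    (-(P.S * (2 * b + 1)) + (if b < P.nV then 0 else 1) * (2 * P.S * P.B) - j - 1 / 2)) ?_).trans
    (h _ _ _ (Or.inl one_ne_zero))
  intro z
  unfold lineF gz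
  split_ifs <;> push_cast <;> ring

lemma Low.height_le {k : ℕ} {W : List (ℕ × ℕ)} (h : Low k W) (y : ℤ) :
    cnt (Cut fun z => (z.2 : ℤ) ≤ y) W ≤ k := by
  refine (cnt_cut_int_le _ y (lineF 0 1 (- y - 1 / 2)) ?_).trans (h _ _ _ (Or.inr one_ne_zero))
  intro z
  unfold lineF
  push_cast; ring

lemma inRow_iff {b r : ℕ} {x : ℕ × ℕ} : P.InRow b r x ↔
    (x.2 : ℤ) = 2 * P.S * (P.B + r) ∧ 0 ≤ P.gz b x ∧ P.gz b x < P.N := by
  constructor
  · rintro ⟨j, hj, rfl⟩
    rw [gz_self]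
    refine ⟨by simp [pt], by omega, by omega⟩
  · rintro ⟨h1, h2, h3⟩
    refine ⟨(P.gz b x).toNat, by omega, ?_⟩
    have h4 := gz_self (P := P) b r (P.gz b x).toNat
    have h5 : ((P.pt b r (P.gz b x).toNat).2 : ℤ) = x.2 := by rw [h1]; simp [pt]
    rw [Int.toNat_of_nonneg h2] at h4
    refine Prod.ext ?_ (by omega)
    generalize P.pt b r (P.gz b x).toNat = y at h4 h5 ⊢
    unfold gz at h4
    rw [h5] at h4
    omega

lemma Low.row_le {k : ℕ} {W : List (ℕ × ℕ)} (h : Low k W) (b r : ℕ) :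
    cnt (Cut (P.InRow b r)) W ≤ 4 * k := by
  have h1 := h.height_le (2 * P.S * (P.B + r))
  have h2 := h.height_le (2 * P.S * (P.B + r) - 1)
  have h3 := h.gz_le (P := P) b (-1)
  have h4 := h.gz_le (P := P) b (P.N - 1)
  have h5 := cnt_or_le (Cut fun z : ℕ × ℕ => (z.2 : ℤ) ≤ 2 * P.S * (P.B + r))
    (Cut fun z : ℕ × ℕ => (z.2 : ℤ) ≤ 2 * P.S * (P.B + r) - 1) W
  have h6 := cnt_or_le (Cut fun z : ℕ × ℕ => P.gz b z ≤ -1) (Cut fun z => P.gz b z ≤ P.N - 1) W
  refine (cnt_mono (R' := fun x y => (_ ∨ _) ∨ (_ ∨ _)) ?_).trans ((cnt_or_le _ _ W).trans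
    ((Nat.add_le_add h5 h6).trans (by omega)))
  intro e _ he
  simp only [Cut, inRow_iff] at he ⊢
  omega

/-- gap `j` of row `(b, r)` is bridged by an edge inside the row -/
def Cov (P : Par) (W : List (ℕ × ℕ)) (b r j : ℕ) : Prop :=
  ∃ e ∈ edges W, P.InRow b r e.1 ∧ P.InRow b r e.2 ∧ Cut (fun z => P.gz b z ≤ j) e.1 e.2

open Classical in
lemma card_uncov {W : List (ℕ × ℕ)} {b r : ℕ} (hW : ∀ j < P.N, P.pt b r j ∈ W) :
    ((Finset.range (P.N - 1)).filter fun j => ¬ P.Cov W b r j).card ≤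
      cnt (Cut (P.InRow b r)) W := by
  set U := (Finset.range (P.N - 1)).filter fun j => ¬ P.Cov W b r j with hU
  let Blk : ℕ → ℕ × ℕ → Prop := fun j x =>
    P.InRow b r x ∧ P.gz b x ≤ j ∧ ∀ j' ∈ U, j' < j → (j' : ℤ) < P.gz b x
  have key : ∀ j, ∃ e : (ℕ × ℕ) × ℕ × ℕ, j ∈ U → e ∈ edges W ∧
      ((Blk j e.1 ∧ ¬ P.InRow b r e.2) ∨ (¬ P.InRow b r e.1 ∧ Blk j e.2)) := by
    intro j
    by_cases hj : j ∈ U
    swap
    · exact ⟨default, fun h => absurd h hj⟩
    have hj' := hj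
    rw [hU, Finset.mem_filter, Finset.mem_range] at hj'
    obtain ⟨e, he, h⟩ := exists_edge_of_mem (A := Blk j) (hW j (by omega)) (hW (j + 1) (by omega))
      ⟨⟨j, by omega, rfl⟩, by rw [gz_self], fun j' _ h => by rw [gz_self]; omega⟩
      (fun h => by have := h.2.1; rw [gz_self] at this; omega)
    refine ⟨e, fun _ => ⟨he, ?_⟩⟩
    rcases h with ⟨h1, h2⟩ | ⟨h1, h2⟩
    · refine Or.inl ⟨h1, fun h3 => h2 ⟨h3, ?_, fun j' hj'U hlt => ?_⟩⟩
      · by_contra h4
        exact hj'.2 ⟨e, he, h1.1, h3, Or.inl ⟨h1.2.1, h4⟩⟩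
      · by_contra h4
        have h5 := h1.2.2 j' hj'U hlt
        rw [hU, Finset.mem_filter] at hj'U
        exact hj'U.2 ⟨e, he, h1.1, h3, Or.inr ⟨by simpa using h5, by simpa using h4⟩⟩
    · refine Or.inr ⟨fun h3 => h1 ⟨h3, ?_, fun j' hj'U hlt => ?_⟩, h2⟩
      · by_contra h4
        exact hj'.2 ⟨e, he, h3, h2.1, Or.inr ⟨h4, h2.2.1⟩⟩
      · by_contra h4
        have h5 := h2.2.2 j' hj'U hlt
        rw [hU, Finset.mem_filter] at hj'U
        exact hj'U.2 ⟨e, he, h3, h2.1, Or.inl ⟨by simpa using h4, by simpa using h5⟩⟩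
  choose g hg using key
  refine card_le_cnt U g (fun j hj => ⟨(hg j hj).1, ?_⟩) ?_
  · rcases (hg j hj).2 with h | h
    · exact Or.inl ⟨h.1.1, h.2⟩
    · exact Or.inr ⟨h.1, h.2.1⟩
  · have hd : ∀ j ∈ U, ∀ j' ∈ U, ∀ x, Blk j x → Blk j' x → j = j' := by
      intro j hj j' hj' x h h'
      rcases lt_trichotomy j j' with h1 | h1 | h1
      · have := h'.2.2 j hj h1
        have := h.2.1
        omega
      · exact h1
      · have := h.2.2 j' hj' h1
        have := h'.2.1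
        omega
    intro j hj j' hj' h
    have h1 := (hg j hj).2
    have h2 := (hg j' hj').2
    rw [← h] at h2
    rcases h1 with h1 | h1 <;> rcases h2 with h2 | h2
    · exact hd j hj j' hj' _ h1.1 h2.1
    · exact absurd h1.1.1 h2.1
    · exact absurd h2.1.1 h1.1
    · exact hd j hj j' hj' _ h1.2 h2.2

/-- edges crossing barrier `b` with both ends off the barrier -/
def Out (P : Par) (b : ℕ) (x y : ℕ × ℕ) : Prop :=
  ¬ P.Bar b x ∧ ¬ P.Bar b y ∧ Cut (fun z => P.gz b z < 0) x y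

lemma out_le (hP : P.Good) {W : List (ℕ × ℕ)} (h : Low P.k W) {b : ℕ}
    (hW : ∀ x, P.Bar b x → x ∈ W)
    (hW' : ∀ x ∈ W, ¬ P.Bar b x → P.gz b x ≤ -(P.S : ℤ) ∨ (P.S : ℤ) ≤ P.gz b x) :
    cnt (P.Out b) W + P.rho b + ind (b < P.nV) ≤ P.k := by
  classical
  set V := (Finset.range (P.K + 1)).filter (P.Valid b) with hV
  have hVc : P.rho b + ind (b < P.nV) ≤ V.card := by
    have := hP.rho_le b
    by_cases hb : b < P.nV
    · rw [ind_pos hb, ← Finset.card_range (P.rho b),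
        ← Finset.card_insert_of_notMem (a := P.K) (by simp; omega)]
      apply Finset.card_le_card
      intro r hr
      simp only [Finset.mem_insert, Finset.mem_range, hV, Finset.mem_filter, Valid] at hr ⊢
      omega
    · rw [ind_neg hb, add_zero, ← Finset.card_range (P.rho b)]
      apply Finset.card_le_card
      intro r hr
      simp only [Finset.mem_range, hV, Finset.mem_filter, Valid] at hr ⊢
      omega
  obtain ⟨j, hj, hcov⟩ : ∃ j < P.N - 1, ∀ r ∈ V, P.Cov W b r j := by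
    by_contra hno
    push Not at hno
    have h1 : Finset.range (P.N - 1) ⊆ V.biUnion fun r =>
        (Finset.range (P.N - 1)).filter fun j => ¬ P.Cov W b r j := by
      intro j hj
      obtain ⟨r, hr, h2⟩ := hno j (Finset.mem_range.1 hj)
      exact Finset.mem_biUnion.2 ⟨r, hr, Finset.mem_filter.2 ⟨hj, h2⟩⟩
    have h2 := (Finset.card_le_card h1).trans (Finset.card_biUnion_le_card_mul V _ (4 * P.k) (by
      intro r hr
      refine (card_uncov fun j hj => hW _ ⟨r, (Finset.mem_filter.1 hr).2, j, hj, rfl⟩).trans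
        (h.row_le b r)))
    have h3 : V.card ≤ P.K + 1 := (Finset.card_filter_le _ _).trans (by simp)
    have h4 := Nat.mul_le_mul_right (4 * P.k) h3
    have h5 := hP.N_big
    rw [Finset.card_range] at h2
    omega
  have key : ∀ r, ∃ e : (ℕ × ℕ) × ℕ × ℕ, r ∈ V → e ∈ edges W ∧ P.InRow b r e.1 ∧
      P.InRow b r e.2 ∧ Cut (fun z => P.gz b z ≤ j) e.1 e.2 := by
    intro r
    by_cases hr : r ∈ V
    · obtain ⟨e, he⟩ := hcov r hr
      exact ⟨e, fun _ => he⟩
    · exact ⟨default, fun h => absurd h hr⟩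
  choose g hg using key
  have h1 : V.card ≤ cnt (fun x y => P.Bar b x ∧ Cut (fun z => P.gz b z ≤ j) x y) W :=
    card_le_cnt V g (fun r hr => ⟨(hg r hr).1, ⟨r, (Finset.mem_filter.1 hr).2, (hg r hr).2.1⟩,
      (hg r hr).2.2.2⟩) (by
        intro r hr r' hr' h
        have h1 := (hg r hr).2.1
        have h2 := (hg r' hr').2.1
        rw [← h] at h2
        exact (h1.unique hP h2).2)
  have h2 := cnt_or_of_disj (P.Out b) (fun x y => P.Bar b x ∧ Cut (fun z => P.gz b z ≤ j) x y) W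
    fun x y h h' => h.1 h'.1
  have h3 : cnt (fun x y => P.Out b x y ∨ P.Bar b x ∧ Cut (fun z => P.gz b z ≤ j) x y) W ≤
      cnt (Cut fun z => P.gz b z ≤ j) W := by
    refine cnt_mono fun e he h => ?_
    rcases h with ⟨h1, h2, h3⟩ | h
    · have h4 := hW' _ (mem_of_mem_edges he).1 h1
      have h5 := hW' _ (mem_of_mem_edges he).2 h2
      have := N_le_S (P := P)
      simp only [Cut] at h3 ⊢
      omega
    · exact h.2
  have h4 := h.gz_le (P := P) b j
  omega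

lemma Bar.gz_of_lt {b b' : ℕ} {x : ℕ × ℕ} (h : P.Bar b' x) (hb : b < b') : (P.S : ℤ) ≤ P.gz b x := by
  obtain ⟨r, -, j, -, rfl⟩ := h
  exact gz_gt hb r j

lemma Bar.gz_of_gt {b b' : ℕ} {x : ℕ × ℕ} (h : P.Bar b' x) (hb : b' < b) :
    P.gz b x ≤ -(P.S : ℤ) := by
  obtain ⟨r, -, j, hj, rfl⟩ := h
  exact gz_lt hb r hj

lemma Bar.unique (hP : P.Good) {b b' : ℕ} {x : ℕ × ℕ} (h : P.Bar b x) (h' : P.Bar b' x) : b = b' := by
  obtain ⟨r, -, h⟩ := h
  obtain ⟨r', -, h'⟩ := h'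
  exact (h.unique hP h').1

lemma not_bar_emb (hP : P.Good) {z : ℕ × ℕ} (hz : z.1 + z.2 < P.B) (b : ℕ) : ¬ P.Bar b (P.emb z) := by
  intro h
  have := emb_height hP hz
  have := (h.height hP).1
  omega

lemma out_le_of_perm (hP : P.Good) {Q W : List (ℕ × ℕ)} (hQ : ∀ z ∈ Q, z.1 + z.2 < P.B)
    (hW : W.Perm (Q.map P.emb ++ P.tailPts)) (h : Low P.k W) {b : ℕ} (hb : b < P.B) :
    cnt (P.Out b) W + P.rho b + ind (b < P.nV) ≤ P.k := by
  refine out_le hP h (fun x hx => hW.mem_iff.2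
    (List.mem_append_right _ ((mem_tailPts hP).2 ⟨b, hb, hx⟩))) fun x hx hx' => ?_
  rcases List.mem_append.1 (hW.mem_iff.1 hx) with hx | hx
  · obtain ⟨z, hz, rfl⟩ := List.mem_map.1 hx
    by_cases hl : P.Left b z
    · exact Or.inl (gz_emb_left hb hl)
    · exact Or.inr (gz_emb_right hb hl)
  · obtain ⟨b', -, hb'⟩ := (mem_tailPts hP).1 hx
    rcases lt_trichotomy b b' with h1 | h1 | h1
    · exact Or.inr (hb'.gz_of_lt h1)
    · exact absurd (h1 ▸ hb') hx'
    · exact Or.inl (hb'.gz_of_gt h1)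

lemma out_emb (hP : P.Good) {b : ℕ} (hb : b < P.B) {z w : ℕ × ℕ} (hz : z.1 + z.2 < P.B)
    (hw : w.1 + w.2 < P.B) (h : Cut (P.Left b) z w) : P.Out b (P.emb z) (P.emb w) := by
  have hS := S_pos hP
  refine ⟨not_bar_emb hP hz b, not_bar_emb hP hw b, ?_⟩
  rcases h with ⟨h1, h2⟩ | ⟨h1, h2⟩
  · have := gz_emb_left hb h1
    have := gz_emb_right hb h2
    simp only [Cut]; omega
  · have := gz_emb_left hb h2
    have := gz_emb_right hb h1
    simp only [Cut]; omega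

/-- an edge from a logic point to a barrier point -/
lemma out_exit (hP : P.Good) {z x : ℕ × ℕ} (hz : z.1 + z.2 < P.B ∧ z.1 < P.nV ∧ z.2 ≤ P.B - 1 - P.nV)
    {b : ℕ} (hx : P.Bar b x) :
    (b < P.nV → P.Out P.nV (P.emb z) x) ∧ (P.nV ≤ b → P.Out (P.nV - 1) (P.emb z) x) := by
  have hS := S_pos hP
  have h0 := hP.nV_pos
  have h1 := hP.nV_lt
  constructor
  · intro hb
    refine ⟨not_bar_emb hP hz.1 _, fun h => by have := hx.unique hP h; omega, ?_⟩
    have h2 := gz_emb_right (P := P) h1 (z := z) (by unfold Left; rw [if_neg (by omega)]; omega)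
    have h3 := hx.gz_of_gt hb
    simp only [Cut]; omega
  · intro hb
    refine ⟨not_bar_emb hP hz.1 _, fun h => by have := hx.unique hP h; omega, ?_⟩
    have h2 := gz_emb_left (P := P) (b := P.nV - 1) (by omega) (z := z)
      (by unfold Left; rw [if_pos (by omega)]; omega)
    have h3 := hx.gz_of_lt (b := P.nV - 1) (by omega)
    simp only [Cut]; omega

lemma Out.symm {b : ℕ} {x y : ℕ × ℕ} (h : P.Out b x y) : P.Out b y x := ⟨h.2.1, h.1, h.2.2.symm⟩

lemma mem_edges_concat {α : Type*} (l : List α) (x y : α) (m : List α) :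
    (x, y) ∈ edges (l ++ x :: y :: m) := by
  induction l with
  | nil => exact List.mem_cons_self
  | cons z l ih =>
    cases l with
    | nil => exact List.mem_cons_of_mem _ ih
    | cons w l => exact List.mem_cons_of_mem _ ih

lemma sound_aux (hP : P.Good) {Q : List (ℕ × ℕ)}
    (hQ : ∀ z ∈ Q, z.1 + z.2 < P.B ∧ z.1 < P.nV ∧ z.2 ≤ P.B - 1 - P.nV)
    (h0 : P.k ≤ P.rho P.nV) {l₁ l₂ : List (ℕ × ℕ)}
    (hW : (l₁ ++ l₂).Perm (Q.map P.emb ++ P.tailPts)) (h : Low P.k (l₁ ++ l₂))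
    (h₁ : ∀ x ∈ l₁, x.2 < 2 * P.S * P.B) (h₂ : ∀ x ∈ l₂, ¬ x.2 < 2 * P.S * P.B) :
    ∃ L : List (ℕ × ℕ), L.Perm Q ∧
      (∀ i < P.nV, cnt (Cut (P.Left i)) (L ++ [(P.nV, 0)]) + P.rho i + 1 ≤ P.k) ∧
      ∀ i < P.B, cnt (Cut (P.Left i)) L + P.rho i ≤ P.k := by
  have hQ' : ∀ z ∈ Q, z.1 + z.2 < P.B := fun z hz => (hQ z hz).1
  have hp := hW.filter (fun x => x.2 < 2 * P.S * P.B)
  have hp' := hW.filter (fun x => ¬ x.2 < 2 * P.S * P.B)
  have e1 : ∀ x ∈ Q.map P.emb, x.2 < 2 * P.S * P.B := by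
    intro x hx
    obtain ⟨z, hz, rfl⟩ := List.mem_map.1 hx
    exact emb_height hP (hQ' z hz)
  have e2 : ∀ x ∈ P.tailPts, ¬ x.2 < 2 * P.S * P.B := by
    intro x hx
    obtain ⟨b, -, hb⟩ := (mem_tailPts hP).1 hx
    have := (hb.height hP).1
    omega
  rw [List.filter_append, List.filter_append,
    (List.filter_eq_self (l := l₁)).2 (fun y hy => by simpa using h₁ y hy),
    (List.filter_eq_nil_iff (l := l₂)).2 (fun y hy => by simpa using h₂ y hy),
    (List.filter_eq_self (l := Q.map P.emb)).2 (fun y hy => by simpa using e1 y hy),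
    (List.filter_eq_nil_iff (l := P.tailPts)).2 (fun y hy => by simpa using e2 y hy),
    List.append_nil, List.append_nil] at hp
  rw [List.filter_append, List.filter_append,
    (List.filter_eq_nil_iff (l := l₁)).2 (fun y hy => by simpa using h₁ y hy),
    (List.filter_eq_self (l := l₂)).2 (fun y hy => by simpa using h₂ y hy),
    (List.filter_eq_nil_iff (l := Q.map P.emb)).2 (fun y hy => by simpa using e1 y hy),
    (List.filter_eq_self (l := P.tailPts)).2 (fun y hy => by simpa using e2 y hy),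
    List.nil_append, List.nil_append] at hp'
  obtain ⟨L, hL, rfl⟩ : ∃ L : List (ℕ × ℕ), L.Perm Q ∧ L.map P.emb = l₁ := by
    have := List.perm_comp_forall₂ (r := fun (x : ℕ × ℕ) (z : ℕ × ℕ) => x = P.emb z) hp
      (by rw [List.forall₂_map_left_iff]; exact List.forall₂_same.2 fun _ _ => rfl)
    obtain ⟨L, h1, h2⟩ := this
    refine ⟨L, h2, ?_⟩
    clear hp h₁ h hW h2
    induction h1 with
    | nil => rfl
    | cons h _ ih => rw [List.map_cons, ih, h]
  have hL' : ∀ z ∈ L, z.1 + z.2 < P.B ∧ z.1 < P.nV ∧ z.2 ≤ P.B - 1 - P.nV :=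
    fun z hz => hQ z (hL.mem_iff.1 hz)
  have hin : ∀ i < P.B, cnt (Cut (P.Left i)) L ≤ cnt (P.Out i) (L.map P.emb) := by
    intro i hi
    rw [cnt_map]
    exact cnt_mono fun e he h => out_emb hP hi (hL' _ (mem_of_mem_edges he).1).1
      (hL' _ (mem_of_mem_edges he).2).1 h
  refine ⟨L, hL, fun i hi => ?_, fun i hi => ?_⟩
  · have hiB := hi.trans hP.nV_lt
    have h3 := out_le_of_perm hP hQ' hW h hiB
    rw [ind_pos hi] at h3
    refine le_trans ?_ h3
    rw [Nat.add_le_add_iff_right, Nat.add_le_add_iff_right]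
    rcases L.eq_nil_or_concat' with rfl | ⟨L', z, rfl⟩
    · simp
    obtain ⟨w, l₃, rfl⟩ : ∃ w l₃, l₂ = w :: l₃ := by
      cases l₂ with
      | nil =>
        have h4 : P.pt 0 P.K 0 ∈ P.tailPts := (mem_tailPts hP).2
          ⟨0, by omega, P.K, Or.inr ⟨rfl, hP.nV_pos⟩, 0, hP.N_pos, rfl⟩
        exact absurd (hp'.mem_iff.2 h4) (by simp)
      | cons w l₃ => exact ⟨w, l₃, rfl⟩
    obtain ⟨b', -, hb'⟩ := (mem_tailPts hP).1 (hp'.mem_iff.1 List.mem_cons_self)
    have hz := hL' z (by simp)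
    have hb : P.nV ≤ b' := by
      by_contra hc
      have h4 := (out_exit hP hz hb').1 (by omega)
      have h5 := out_le_of_perm hP hQ' hW h hP.nV_lt
      have h6 : (P.emb z, w) ∈ edges ((L' ++ [z]).map P.emb ++ w :: l₃) := by
        simpa using mem_edges_concat (L'.map P.emb) (P.emb z) w l₃
      have := one_le_cnt (R := P.Out P.nV) h6 h4
      omega
    have h4 := hin i hiB
    have h5 : (L' ++ [z]).map P.emb ++ w :: l₃ = L'.map P.emb ++ P.emb z :: w :: l₃ := by simp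
    have h6 : L' ++ [z] ++ [(P.nV, 0)] = L' ++ z :: [(P.nV, 0)] := by simp
    rw [h5, h6, cnt_append_cons, cnt_append_cons (P.Out i), cnt_cons_cons, cnt_cons_cons, cnt_single]
    rw [List.map_append, List.map_singleton] at h4
    have h7 : ind (Cut (P.Left i) z (P.nV, 0)) ≤ ind (P.Out i (P.emb z) w) := ind_mono fun h7 => by
      have h8 : ¬ P.Left i (P.nV, 0) := by unfold Left; rw [if_pos hi]; simp; omega
      have h9 : P.Left i z := by unfold Cut at h7; tauto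
      refine ⟨not_bar_emb hP hz.1 _, fun h => by have := hb'.unique hP h; omega, ?_⟩
      have h10 := gz_emb_left hiB h9
      have h11 := hb'.gz_of_lt (b := i) (by omega)
      have hS := S_pos hP
      simp only [Cut]; omega
    omega
  · have h3 := out_le_of_perm hP hQ' hW h hi
    have h4 := hin i hi
    have h5 := cnt_le_append_left (P.Out i) (L.map P.emb) l₂
    omega

theorem sound (hP : P.Good) {Q : List (ℕ × ℕ)}
    (hQ : ∀ z ∈ Q, z.1 + z.2 < P.B ∧ z.1 < P.nV ∧ z.2 ≤ P.B - 1 - P.nV)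
    (h0 : P.k ≤ P.rho P.nV) (h1 : P.k ≤ P.rho (P.nV - 1) + 2) {W : List (ℕ × ℕ)}
    (hW : W.Perm (Q.map P.emb ++ P.tailPts)) (h : Low P.k W) :
    ∃ L : List (ℕ × ℕ), L.Perm Q ∧
      (∀ i < P.nV, cnt (Cut (P.Left i)) (L ++ [(P.nV, 0)]) + P.rho i + 1 ≤ P.k) ∧
      ∀ i < P.B, cnt (Cut (P.Left i)) L + P.rho i ≤ P.k := by
  have hQ' : ∀ z ∈ Q, z.1 + z.2 < P.B := fun z hz => (hQ z hz).1
  have hn := hP.nV_pos
  have hB := hP.nV_lt
  have h2 := out_le_of_perm hP hQ' hW h hP.nV_lt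
  have h3 := out_le_of_perm hP hQ' hW h (b := P.nV - 1) (by omega)
  rw [ind_pos (by omega)] at h3
  have h4 := cnt_or_le (P.Out P.nV) (P.Out (P.nV - 1)) W
  have key : ∀ x ∈ W, ∀ y ∈ W, x.2 < 2 * P.S * P.B → ¬ y.2 < 2 * P.S * P.B →
      P.Out P.nV x y ∨ P.Out (P.nV - 1) x y := by
    intro x hx y hy hx' hy'
    rcases List.mem_append.1 (hW.mem_iff.1 hx) with hx | hx
    swap
    · obtain ⟨b, -, hb⟩ := (mem_tailPts hP).1 hx
      have := (hb.height hP).1
      omega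
    obtain ⟨z, hz, rfl⟩ := List.mem_map.1 hx
    rcases List.mem_append.1 (hW.mem_iff.1 hy) with hy | hy
    · obtain ⟨w, hw, rfl⟩ := List.mem_map.1 hy
      exact absurd (emb_height hP (hQ' w hw)) hy'
    obtain ⟨b, -, hb⟩ := (mem_tailPts hP).1 hy
    by_cases hb' : b < P.nV
    · exact Or.inl ((out_exit hP (hQ z hz) hb).1 hb')
    · exact Or.inr ((out_exit hP (hQ z hz) hb).2 (by omega))
  have h5 : cnt (Cut fun x : ℕ × ℕ => x.2 < 2 * P.S * P.B) W ≤
      cnt (fun x y => P.Out P.nV x y ∨ P.Out (P.nV - 1) x y) W := by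
    refine cnt_mono fun e he h => ?_
    have h6 := mem_of_mem_edges he
    rcases h with h | h
    · exact key _ h6.1 _ h6.2 h.1 h.2
    · exact (key _ h6.2 _ h6.1 h.2 h.1).imp Out.symm Out.symm
  obtain ⟨l₁, l₂, rfl, h6 | h6⟩ := split_of_cut_le_one
    (show cnt (Cut fun x : ℕ × ℕ => x.2 < 2 * P.S * P.B) W ≤ 1 by omega)
  · exact sound_aux hP hQ h0 hW h h6.1 h6.2
  · have h7 := h.reverse
    have h8 := (List.reverse_perm _).trans hW
    rw [List.reverse_append] at h7 h8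
    exact sound_aux hP hQ h0 h8 h7 (fun x hx => h6.2 x (List.mem_reverse.1 hx))
      (fun x hx => h6.1 x (List.mem_reverse.1 hx))

end Par

end Pool.Agent.MP_a4672b_lc
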